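import Mathlib

/-!
The fully frustrated gauge subshift on the cosets of a copy of the square lattice: it is a
nonempty strongly irreducible subshift of finite type, and it has no periodic point when the two
generators of the lattice are conjugate to their squares.
-/

set_option autoImplicit false

namespace Pool.Agent.H138Z.Frust

lemma exists_prim (f : ℤ → ZMod 2) : ∃ F : ℤ → ZMod 2, F 0 = 0 ∧ ∀ n, F (n + 1) = F n + f n := by
  let P : ℕ → ZMod 2 := fun n => ∑ i ∈ Finset.range n, f i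
  let Q : ℕ → ZMod 2 := fun n => - ∑ i ∈ Finset.range n, f (-(i : ℤ) - 1)
  refine ⟨fun n => if 0 ≤ n then P n.toNat else Q (-n).toNat, by simp [P], fun n => ?_⟩
  rcases le_or_gt 0 n with h | h
  · obtain ⟨k, rfl⟩ := Int.eq_ofNat_of_zero_le h
    have h1 : (0 : ℤ) ≤ (k : ℤ) + 1 := by omega
    have h2 : ((k : ℤ) + 1).toNat = k + 1 := by omega
    simp only [h1, h, if_true, h2, Int.toNat_natCast, P, Finset.sum_range_succ]
  · obtain ⟨k, rfl⟩ : ∃ k : ℕ, n = -(k : ℤ) - 1 := ⟨(-n - 1).toNat, by omega⟩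
    have h3 : ¬ (0 : ℤ) ≤ -(k : ℤ) - 1 := by omega
    have h4 : (-(-(k : ℤ) - 1)).toNat = k + 1 := by omega
    simp only [h3, if_false, h4, Q, Finset.sum_range_succ]
    rcases Nat.eq_zero_or_pos k with rfl | hk
    · simp [P, CharTwo.add_self_eq_zero]
    · have h5 : ¬ (0 : ℤ) ≤ -(k : ℤ) - 1 + 1 := by omega
      have h6 : (-(-(k : ℤ) - 1 + 1)).toNat = k := by omega
      simp only [h5, if_false, h6]
      ring

lemma exists_pot (p q : ℤ → ℤ → ZMod 2)
    (h : ∀ m n, p m n + q (m + 1) n = q m n + p m (n + 1)) :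
    ∃ W : ℤ → ℤ → ZMod 2, (∀ m n, W (m + 1) n = W m n + p m n) ∧
      ∀ m n, W m (n + 1) = W m n + q m n := by
  obtain ⟨F, -, hF⟩ := exists_prim (fun m => p m 0)
  choose Gm hG0 hG using fun m => exists_prim (q m)
  refine ⟨fun m n => F m + Gm m n, fun m n => ?_, fun m n => by simp only [hG, add_assoc]⟩
  induction n using Int.induction_on with
  | zero => simp only [hF, hG0]; ring
  | succ n ih =>
    have := h m n
    simp only [hG]
    linear_combination ih + this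
  | pred n ih =>
    have h1 := h m (-(n : ℤ) - 1)
    have h2 := hG m (-(n : ℤ) - 1)
    have h3 := hG (m + 1) (-(n : ℤ) - 1)
    have e : -(n : ℤ) - 1 + 1 = -(n : ℤ) := by ring
    rw [e] at h1 h2 h3
    linear_combination ih - h1 - h3 + h2

section Core

variable {G : Type*} [Group G] (φ : ℤ × ℤ → G)

/-- the fully frustrated configurations -/
def XX : Set (G → ZMod 2 × ZMod 2) :=
  {x | ∀ g, (x g).1 + (x (φ (1, 0) * g)).2 + (x g).2 + (x (φ (0, 1) * g)).1 = 1}

variable {φ}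

lemma exists_coord (hφ : ∀ k l, φ (k + l) = φ k * φ l) (hinj : Function.Injective φ) :
    ∃ (r : G → G) (c : G → ℤ × ℤ), (∀ g, φ (c g) * r g = g) ∧ (∀ k g, r (φ k * g) = r g) ∧
      ∀ k g, c (φ k * g) = k + c g := by
  have h0 : φ 0 = 1 := by
    have := hφ 0 0
    rw [add_zero] at this
    exact mul_eq_left.1 this.symm
  let s : Setoid G := ⟨fun g g' => ∃ k, φ k * g = g', fun g => ⟨0, by rw [h0, one_mul]⟩,
    fun {g g'} ⟨k, hk⟩ => ⟨-k, by rw [← hk, ← mul_assoc, ← hφ, neg_add_cancel, h0, one_mul]⟩,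
    fun {g g' g''} ⟨k, hk⟩ ⟨l, hl⟩ => ⟨l + k, by rw [hφ, mul_assoc, hk, hl]⟩⟩
  have h1 : ∀ g, ∃ k, φ k * (Quotient.mk s g).out = g := fun g => Quotient.mk_out (s := s) g
  choose c hc using h1
  have h2 : ∀ k g, Quotient.mk s (φ k * g) = Quotient.mk s g := fun k g =>
    (Quotient.sound (s := s) ⟨k, rfl⟩).symm
  refine ⟨fun g => (Quotient.mk s g).out, c, hc, fun k g => by simp only [h2], fun k g => ?_⟩
  apply hinj
  have h3 := hc (φ k * g)
  rw [h2] at h3
  apply mul_right_cancel (b := (Quotient.mk s g).out)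
  rw [h3, hφ, mul_assoc, hc]

lemma nonempty (hφ : ∀ k l, φ (k + l) = φ k * φ l) (hinj : Function.Injective φ) :
    (XX φ).Nonempty := by
  obtain ⟨r, c, -, -, hc⟩ := exists_coord hφ hinj
  refine ⟨fun g => (0, ((c g).1 : ZMod 2)), fun g => ?_⟩
  simp only [hc, Prod.fst_add]
  push_cast
  generalize (((c g).1 : ℤ) : ZMod 2) = u
  revert u; decide

lemma gauge (hφ : ∀ k l, φ (k + l) = φ k * φ l) {x : G → ZMod 2 × ZMod 2} (hx : x ∈ XX φ)
    (w : G → ZMod 2) :
    (fun g => ((x g).1 + w g + w (φ (1, 0) * g), (x g).2 + w g + w (φ (0, 1) * g))) ∈ XX φ := by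
  intro g
  have h1 := hx g
  have h2 : φ (0, 1) * (φ (1, 0) * g) = φ (1, 0) * (φ (0, 1) * g) := by
    rw [← mul_assoc, ← mul_assoc, ← hφ, ← hφ, add_comm]
  simp only [h2]
  have h3 : (2 : ZMod 2) = 0 := rfl
  linear_combination h1 + (w g + w (φ (1, 0) * g) + w (φ (0, 1) * g) +
    w (φ (1, 0) * (φ (0, 1) * g))) * h3

lemma exists_gauge (hφ : ∀ k l, φ (k + l) = φ k * φ l) (hinj : Function.Injective φ)
    {x y : G → ZMod 2 × ZMod 2} (hx : x ∈ XX φ) (hy : y ∈ XX φ) :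
    ∃ w : G → ZMod 2, ∀ g,
      x g = ((y g).1 + w g + w (φ (1, 0) * g), (y g).2 + w g + w (φ (0, 1) * g)) := by
  obtain ⟨r, c, hr, hr', hc⟩ := exists_coord hφ hinj
  have h3 : (2 : ZMod 2) = 0 := rfl
  have e1 : ∀ (m n : ℤ) (g : G), φ (1, 0) * (φ (m, n) * g) = φ (m + 1, n) * g := by
    intro m n g
    rw [← mul_assoc, ← hφ, Prod.mk_add_mk, zero_add, add_comm]
  have e2 : ∀ (m n : ℤ) (g : G), φ (0, 1) * (φ (m, n) * g) = φ (m, n + 1) * g := by
    intro m n g
    rw [← mul_assoc, ← hφ, Prod.mk_add_mk, zero_add, add_comm]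
  have key : ∀ g0 : G, ∃ W : ℤ → ℤ → ZMod 2,
      (∀ m n, W (m + 1) n = W m n + ((x (φ (m, n) * g0)).1 - (y (φ (m, n) * g0)).1)) ∧
      ∀ m n, W m (n + 1) = W m n + ((x (φ (m, n) * g0)).2 - (y (φ (m, n) * g0)).2) := by
    intro g0
    refine exists_pot (fun m n => (x (φ (m, n) * g0)).1 - (y (φ (m, n) * g0)).1)
      (fun m n => (x (φ (m, n) * g0)).2 - (y (φ (m, n) * g0)).2) fun m n => ?_
    have h1 := hx (φ (m, n) * g0)
    have h2 := hy (φ (m, n) * g0)
    rw [e1, e2] at h1 h2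
    linear_combination h1 - h2 - ((x (φ (m, n) * g0)).2 - (y (φ (m, n) * g0)).2 +
      (x (φ (m, n + 1) * g0)).1 - (y (φ (m, n + 1) * g0)).1) * h3
  choose W hW1 hW2 using key
  refine ⟨fun g => W (r g) (c g).1 (c g).2, fun g => ?_⟩
  have h1 := hW1 (r g) (c g).1 (c g).2
  have h2 := hW2 (r g) (c g).1 (c g).2
  rw [Prod.mk.eta, hr] at h1 h2
  simp only [hr', hc, Prod.fst_add, Prod.snd_add, zero_add]
  rw [add_comm 1 (c g).1, add_comm 1 (c g).2, h1, h2]
  ext
  · simp only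
    linear_combination (- W (r g) (c g).1 (c g).2) * h3
  · simp only
    linear_combination (- W (r g) (c g).1 (c g).2) * h3

lemma si (hφ : ∀ k l, φ (k + l) = φ k * φ l) (hinj : Function.Injective φ) :
    ∃ Δ : Finset G, ∀ Ω₁ Ω₂ : Set G, (∀ d ∈ Δ, ∀ w ∈ Ω₁, d * w ∉ Ω₂) →
      ∀ x₁ ∈ XX φ, ∀ x₂ ∈ XX φ, ∃ z ∈ XX φ,
        (∀ w ∈ Ω₁, z w = x₁ w) ∧ (∀ w ∈ Ω₂, z w = x₂ w) := by
  classical
  let T : Finset G := {1, φ (1, 0), φ (0, 1)}
  refine ⟨(T ×ˢ T).image fun p => p.1⁻¹ * p.2, fun Ω₁ Ω₂ hΩ x₁ h₁ x₂ h₂ => ?_⟩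
  obtain ⟨w, hw⟩ := exists_gauge hφ hinj h₁ h₂
  let w' : G → ZMod 2 := fun g => if ∃ s ∈ T, ∃ v ∈ Ω₁, g = s * v then w g else 0
  have a1 : ∀ s ∈ T, ∀ v ∈ Ω₁, w' (s * v) = w (s * v) := fun s hs v hv =>
    if_pos ⟨s, hs, v, hv, rfl⟩
  have a2 : ∀ s ∈ T, ∀ v ∈ Ω₂, w' (s * v) = 0 := by
    intro s hs v hv
    refine if_neg ?_
    rintro ⟨s', hs', v', hv', h⟩
    refine hΩ (s⁻¹ * s') (Finset.mem_image.2 ⟨(s, s'), Finset.mem_product.2 ⟨hs, hs'⟩, rfl⟩)
      v' hv' ?_
    rw [mul_assoc, ← h, inv_mul_cancel_left]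
    exact hv
  have t1 : (1 : G) ∈ T := by simp [T]
  have t2 : φ (1, 0) ∈ T := by simp [T]
  have t3 : φ (0, 1) ∈ T := by simp [T]
  refine ⟨_, gauge hφ h₂ w', fun v hv => ?_, fun v hv => ?_⟩
  · have := a1 1 t1 v hv
    rw [one_mul] at this
    rw [hw v]
    simp only [this, a1 _ t2 v hv, a1 _ t3 v hv]
  · have := a2 1 t1 v hv
    rw [one_mul] at this
    simp only [this, a2 _ t2 v hv, a2 _ t3 v hv, add_zero]

lemma sft : ∃ (S : Finset G) (P : Set (S → ZMod 2 × ZMod 2)),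
    XX φ = {x | ∀ g : G, (fun s : S => x (s.1 * g)) ∈ P} := by
  classical
  let T : Finset G := {1, φ (1, 0), φ (0, 1)}
  have t1 : (1 : G) ∈ T := by simp [T]
  have t2 : φ (1, 0) ∈ T := by simp [T]
  have t3 : φ (0, 1) ∈ T := by simp [T]
  refine ⟨T, {p | (p ⟨_, t1⟩).1 + (p ⟨_, t2⟩).2 + (p ⟨_, t1⟩).2 + (p ⟨_, t3⟩).1 = 1}, ?_⟩
  ext x
  simp only [XX, Set.mem_ofPred_eq, one_mul]

lemma odd_period {A : Type*} {y : G → A}
    (hy : (Set.range (fun g : G => fun h : G => y (h * g))).Finite) {a t : G}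
    (hat : t * a = a ^ 2 * t) : ∃ p : ℕ, Odd p ∧ ∀ h, y (h * a ^ p) = y h := by
  let _ : MulAction G (G → A) :=
    { smul := fun g y h => y (h * g)
      one_smul := fun y => by
        funext h
        change y (h * 1) = y h
        rw [mul_one]
      mul_smul := fun g g' y => by
        funext h
        change y (h * (g * g')) = y (h * g * g')
        rw [mul_assoc] }
  have h1 : (MulAction.orbit G y).Finite := hy
  have h2 : (MulAction.stabilizer G y).FiniteIndex := by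
    constructor
    rw [MulAction.index_stabilizer]
    exact Set.ncard_ne_zero_of_mem (MulAction.mem_orbit_self y) h1
  set N := (MulAction.stabilizer G y).normalCore with hN
  have h3 : Finite (G ⧸ N) := inferInstance
  let q : G →* G ⧸ N := QuotientGroup.mk' N
  have h4 : SemiconjBy (q t) (q a) (q a ^ 2) := by
    unfold SemiconjBy
    rw [← map_pow, ← map_mul, ← map_mul, hat]
  have h5 : orderOf (q a) = orderOf (q a ^ 2) := h4.orderOf_eq _
  have h6 : 0 < orderOf (q a) := orderOf_pos _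
  refine ⟨orderOf (q a), ?_, fun h => ?_⟩
  · rw [← Nat.not_even_iff_odd]
    intro he
    rw [orderOf_pow, Nat.gcd_eq_right (even_iff_two_dvd.1 he)] at h5
    omega
  · have h7 : a ^ orderOf (q a) ∈ N := by
      rw [← QuotientGroup.eq_one_iff]
      change q (a ^ orderOf (q a)) = 1
      rw [map_pow, pow_orderOf_eq_one]
    have h8 := Subgroup.normalCore_le _ h7
    exact congrFun (MulAction.mem_stabilizer_iff.1 h8) h

lemma sum_shift (f : ℕ → ZMod 2) (p : ℕ) (h : f p = f 0) :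
    ∑ i ∈ Finset.range p, f (i + 1) = ∑ i ∈ Finset.range p, f i := by
  have h1 := Finset.sum_range_succ' f p
  have h2 := Finset.sum_range_succ f p
  rw [h2, h] at h1
  exact (add_right_cancel h1).symm

lemma no_periodic (hφ : ∀ k l, φ (k + l) = φ k * φ l) {s t : G}
    (hs : s * φ (1, 0) = φ (1, 0) ^ 2 * s) (ht : t * φ (0, 1) = φ (0, 1) ^ 2 * t)
    {y : G → ZMod 2 × ZMod 2} (hy : y ∈ XX φ) :
    ¬ (Set.range (fun g : G => fun h : G => y (h * g))).Finite := by
  intro hfin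
  obtain ⟨p, hp, hp'⟩ := odd_period hfin hs
  obtain ⟨q, hq, hq'⟩ := odd_period hfin ht
  have h0 : φ 0 = 1 := by
    have := hφ 0 0
    rw [add_zero] at this
    exact mul_eq_left.1 this.symm
  have e1 : ∀ n : ℕ, φ (1, 0) ^ n = φ (n, 0) := by
    intro n
    induction n with
    | zero => rw [pow_zero, ← h0]; rfl
    | succ n ih => rw [pow_succ, ih, ← hφ]; simp
  have e2 : ∀ n : ℕ, φ (0, 1) ^ n = φ (0, n) := by
    intro n
    induction n with
    | zero => rw [pow_zero, ← h0]; rfl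
    | succ n ih => rw [pow_succ, ih, ← hφ]; simp
  let u : ℕ → ℕ → ZMod 2 := fun m n => (y (φ (m, n))).1
  let v : ℕ → ℕ → ZMod 2 := fun m n => (y (φ (m, n))).2
  have h1 : ∀ m n, u m n + v (m + 1) n + v m n + u m (n + 1) = 1 := by
    intro m n
    have := hy (φ (m, n))
    rw [← hφ, ← hφ] at this
    simp only [Prod.mk_add_mk, zero_add] at this
    simp only [u, v]
    push_cast
    rw [add_comm (m : ℤ) 1, add_comm (n : ℤ) 1]
    exact this
  have h2 : ∀ n, v p n = v 0 n := by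
    intro n
    have := hp' (φ (0, n))
    rw [e1, ← hφ] at this
    simp only [Prod.mk_add_mk, zero_add, add_zero] at this
    simp only [v, this, Nat.cast_zero]
  have h3 : ∀ m, u m q = u m 0 := by
    intro m
    have := hq' (φ (m, 0))
    rw [e2, ← hφ] at this
    simp only [Prod.mk_add_mk, zero_add, add_zero] at this
    simp only [u, this, Nat.cast_zero]
  have h4 : ∑ m ∈ Finset.range p, ∑ n ∈ Finset.range q,
      (u m n + v (m + 1) n + v m n + u m (n + 1)) = 1 := by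
    simp only [h1, Finset.sum_const, Finset.card_range, nsmul_eq_mul, mul_one]
    rw [(ZMod.natCast_eq_one_iff_odd).2 hp, (ZMod.natCast_eq_one_iff_odd).2 hq, mul_one]
  simp only [Finset.sum_add_distrib] at h4
  have h5 : ∑ m ∈ Finset.range p, ∑ n ∈ Finset.range q, u m (n + 1) =
      ∑ m ∈ Finset.range p, ∑ n ∈ Finset.range q, u m n :=
    Finset.sum_congr rfl fun m _ => sum_shift (u m) q (h3 m)
  have h6 : ∑ m ∈ Finset.range p, ∑ n ∈ Finset.range q, v (m + 1) n =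
      ∑ m ∈ Finset.range p, ∑ n ∈ Finset.range q, v m n :=
    sum_shift (fun m => ∑ n ∈ Finset.range q, v m n) p
      (Finset.sum_congr rfl fun n _ => h2 n)
  rw [h5, h6] at h4
  have h7 : (2 : ZMod 2) = 0 := rfl
  have h8 : (0 : ZMod 2) = 1 := by
    linear_combination h4 - (∑ m ∈ Finset.range p, ∑ n ∈ Finset.range q, u m n +
      ∑ m ∈ Finset.range p, ∑ n ∈ Finset.range q, v m n) * h7
  exact absurd h8 (by decide)

end Core

/-- homotheties and translations of the plane over `R` -/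
@[ext] structure Af (R : Type) [CommRing R] where
  u : Rˣ
  x : R
  y : R

namespace Af

variable {R S : Type} [CommRing R] [CommRing S]

instance : Mul (Af R) := ⟨fun g h => ⟨g.u * h.u, g.x + g.u * h.x, g.y + g.u * h.y⟩⟩
instance : One (Af R) := ⟨⟨1, 0, 0⟩⟩
instance : Inv (Af R) := ⟨fun g => ⟨g.u⁻¹, -((g.u⁻¹ : Rˣ) * g.x), -((g.u⁻¹ : Rˣ) * g.y)⟩⟩

@[simp] lemma mul_u (g h : Af R) : (g * h).u = g.u * h.u := rfl
@[simp] lemma mul_x (g h : Af R) : (g * h).x = g.x + g.u * h.x := rfl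
@[simp] lemma mul_y (g h : Af R) : (g * h).y = g.y + g.u * h.y := rfl
@[simp] lemma one_u : (1 : Af R).u = 1 := rfl
@[simp] lemma one_x : (1 : Af R).x = 0 := rfl
@[simp] lemma one_y : (1 : Af R).y = 0 := rfl
@[simp] lemma inv_u (g : Af R) : (g⁻¹).u = g.u⁻¹ := rfl
@[simp] lemma inv_x (g : Af R) : (g⁻¹).x = -((g.u⁻¹ : Rˣ) * g.x) := rfl
@[simp] lemma inv_y (g : Af R) : (g⁻¹).y = -((g.u⁻¹ : Rˣ) * g.y) := rfl

instance : Group (Af R) := Group.ofLeftAxioms
  (fun a b c => by ext <;> simp <;> ring) (fun a => by ext <;> simp) (fun a => by ext <;> simp)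

/-- functoriality -/
def map (f : R →+* S) : Af R →* Af S where
  toFun g := ⟨Units.map f.toMonoidHom g.u, f g.x, f g.y⟩
  map_one' := by ext <;> simp
  map_mul' a b := by ext <;> simp

instance [Finite R] : Finite (Af R) :=
  Finite.of_injective (fun g : Af R => (g.u, g.x, g.y)) fun a b h => by
    simp only [Prod.mk.injEq] at h
    exact Af.ext h.1 h.2.1 h.2.2

end Af

instance fact3 : Fact (Nat.Prime 3) := ⟨Nat.prime_three⟩

lemma rf (g : Af ℤ_[3]) (hg : g ≠ 1) : ∃ H : Subgroup (Af ℤ_[3]), H.FiniteIndex ∧ g ∉ H := by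
  by_contra hcon
  push Not at hcon
  apply hg
  have h : ∀ n, Af.map (PadicInt.toZModPow (p := 3) n) g = 1 := fun n =>
    hcon (Af.map (PadicInt.toZModPow (p := 3) n)).ker inferInstance
  ext
  · refine PadicInt.ext_of_toZModPow.1 fun n => ?_
    have := congrArg (fun k : Af _ => (k.u : ZMod (3 ^ n))) (h n)
    simpa [Af.map] using this
  · refine PadicInt.ext_of_toZModPow.1 fun n => ?_
    have := congrArg Af.x (h n)
    simpa [Af.map] using this
  · refine PadicInt.ext_of_toZModPow.1 fun n => ?_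
    have := congrArg Af.y (h n)
    simpa [Af.map] using this

lemma unit_two : IsUnit (2 : ℤ_[3]) := by
  rw [PadicInt.isUnit_iff]
  have h1 := PadicInt.norm_le_one (2 : ℤ_[3])
  by_contra h
  have h2 : ‖((2 : ℤ) : ℤ_[3])‖ < 1 := lt_of_le_of_ne (by simpa using h1) (by simpa using h)
  rw [PadicInt.norm_int_lt_one_iff_dvd] at h2
  norm_num at h2

/-- translations by integer vectors -/
noncomputable def tr (k : ℤ × ℤ) : Af ℤ_[3] := ⟨1, k.1, k.2⟩

/-- the homothety of ratio two -/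
noncomputable def ho : Af ℤ_[3] := ⟨unit_two.unit, 0, 0⟩

lemma tr_add (k l : ℤ × ℤ) : tr (k + l) = tr k * tr l := by
  ext <;> simp [tr]

lemma tr_inj : Function.Injective tr := by
  intro k l h
  have h1 := congrArg Af.x h
  have h2 := congrArg Af.y h
  simp only [tr, Int.cast_inj] at h1 h2
  exact Prod.ext h1 h2

/-- the group generated by two translations and the homothety -/
noncomputable def GG : Subgroup (Af ℤ_[3]) := Subgroup.closure {tr (1, 0), tr (0, 1), ho}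

lemma tr_mem (k : ℤ × ℤ) : tr k ∈ GG := by
  let ψ : Multiplicative (ℤ × ℤ) →* Af ℤ_[3] :=
    MonoidHom.mk' (fun k => tr k.toAdd) fun a b => tr_add _ _
  have h1 : tr (1, 0) ∈ GG := Subgroup.subset_closure (by simp)
  have h2 : tr (0, 1) ∈ GG := Subgroup.subset_closure (by simp)
  have h3 : tr k = ψ (Multiplicative.ofAdd (1, 0)) ^ k.1 * ψ (Multiplicative.ofAdd (0, 1)) ^ k.2 := by
    rw [← map_zpow ψ, ← map_zpow ψ, ← map_mul ψ, ← ofAdd_zsmul, ← ofAdd_zsmul, ← ofAdd_add]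
    change tr k = tr _
    congr 1
    ext <;> simp
  rw [h3]
  exact GG.mul_mem (GG.zpow_mem h1 _) (GG.zpow_mem h2 _)

theorem main : ∃ (G : Type) (_ : Group G), Group.FG G ∧
    (∀ g : G, g ≠ 1 → ∃ H : Subgroup G, H.FiniteIndex ∧ g ∉ H) ∧
    ∃ X : Set (G → ZMod 2 × ZMod 2),
      (∃ (S : Finset G) (P : Set (S → ZMod 2 × ZMod 2)),
        X = {x | ∀ g : G, (fun s : S => x (s.1 * g)) ∈ P}) ∧
      (∃ Δ : Finset G, ∀ Ω₁ Ω₂ : Set G, (∀ d ∈ Δ, ∀ w ∈ Ω₁, d * w ∉ Ω₂) →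
        ∀ x₁ ∈ X, ∀ x₂ ∈ X, ∃ z ∈ X, (∀ w ∈ Ω₁, z w = x₁ w) ∧ (∀ w ∈ Ω₂, z w = x₂ w)) ∧
      X.Nonempty ∧
      ∀ y ∈ X, ¬ (Set.range (fun g : G => fun h : G => y (h * g))).Finite := by
  let φ : ℤ × ℤ → GG := fun k => ⟨tr k, tr_mem k⟩
  have hφ : ∀ k l, φ (k + l) = φ k * φ l := fun k l => Subtype.ext (tr_add k l)
  have hinj : Function.Injective φ := fun k l h => tr_inj (congrArg Subtype.val h)
  let t : GG := ⟨ho, Subgroup.subset_closure (by simp)⟩
  refine ⟨GG, inferInstance, ?_, ?_, XX φ, sft, si hφ hinj, nonempty hφ hinj,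
    fun y hy => no_periodic hφ (s := t) (t := t) ?_ ?_ hy⟩
  · exact Group.closure_finite_fg _
  · intro g hg
    obtain ⟨H, hH, hgH⟩ := rf g.1 fun h => hg (Subtype.ext h)
    exact ⟨H.subgroupOf GG, inferInstance, hgH⟩
  · apply Subtype.ext
    change ho * tr (1, 0) = tr (1, 0) ^ 2 * ho
    ext <;> simp [ho, tr, pow_two]
    norm_num
  · apply Subtype.ext
    change ho * tr (0, 1) = tr (0, 1) ^ 2 * ho
    ext <;> simp [ho, tr, pow_two]
    norm_num

end Pool.Agent.H138Z.Frust
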