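import Mathlib
import Pool.Agent.Helper176.LJBall

/-!
Symmetric Kottman constant of non-reflexive spaces: it is at least the fourth root of two.
-/

set_option autoImplicit false

namespace Pool.Agent.H138Z.Kott

open Filter Topology

variable {X : Type*} [NormedAddCommGroup X] [NormedSpace ℝ X]

/-- iterated sum of two ultrafilters -/
noncomputable def ad (A B : Ultrafilter X) : Ultrafilter X :=
  A.bind fun a => B.map (fun b => a + b)

/-- multiple of an ultrafilter -/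
noncomputable def sm (c : ℝ) (A : Ultrafilter X) : Ultrafilter X := A.map (fun a => c • a)

omit [NormedSpace ℝ X] in
lemma ev_ad (A B : Ultrafilter X) (p : X → Prop) :
    (∀ᶠ y in (ad A B : Filter X), p y) ↔
      ∀ᶠ a in (A : Filter X), ∀ᶠ b in (B : Filter X), p (a + b) := Iff.rfl

lemma ev_sm (c : ℝ) (A : Ultrafilter X) (p : X → Prop) :
    (∀ᶠ y in (sm c A : Filter X), p y) ↔ ∀ᶠ a in (A : Filter X), p (c • a) := Iff.rfl

/-- weak-star limit `s • Φ` -/
def HL (Φ : StrongDual ℝ (StrongDual ℝ X)) (V : Ultrafilter X) (s : ℝ) : Prop :=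
  ∀ φ : StrongDual ℝ X, ∀ ε > 0, ∀ᶠ y in (V : Filter X), |φ y - s * Φ φ| < ε

variable {Φ : StrongDual ℝ (StrongDual ℝ X)}

lemma HL.ad {A B : Ultrafilter X} {s t : ℝ} (hA : HL Φ A s) (hB : HL Φ B t) :
    HL Φ (ad A B) (s + t) := by
  intro φ ε hε
  rw [ev_ad]
  filter_upwards [hA φ (ε / 2) (by linarith)] with a ha
  filter_upwards [hB φ (ε / 2) (by linarith)] with b hb
  rw [map_add]
  rw [abs_lt] at ha hb ⊢
  constructor <;> nlinarith [ha.1, ha.2, hb.1, hb.2]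

lemma HL.sm {A : Ultrafilter X} {s : ℝ} (c : ℝ) (hA : HL Φ A s) : HL Φ (sm c A) (c * s) := by
  intro φ ε hε
  rw [ev_sm]
  filter_upwards [hA (c • φ) ε hε] with a ha
  have h1 : φ (c • a) = (c • φ) a := by simp
  have h2 : c * s * Φ φ = s * Φ (c • φ) := by simp; ring
  rw [h1, h2]; exact ha

lemma norm_smul_dual (Y : Type*) [NormedAddCommGroup Y] [NormedSpace ℝ Y] (s : ℝ)
    (f : StrongDual ℝ Y) : ‖s • f‖ = |s| * ‖f‖ := by rw [norm_smul, Real.norm_eq_abs]

lemma riesz_dual (Y : Type*) [NormedAddCommGroup Y] [NormedSpace ℝ Y] [CompleteSpace X]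
    (T : X →ₗᵢ[ℝ] StrongDual ℝ Y) (hT : ¬ Function.Surjective T) {θ : ℝ} (h : θ < 1) :
    ∃ Φ : StrongDual ℝ Y, ‖Φ‖ ≤ 1 ∧ ∀ y, θ ≤ ‖Φ - T y‖ := by
  let F : Submodule ℝ (StrongDual ℝ Y) := LinearMap.range T.toLinearMap
  have hFc : IsClosed (F : Set (StrongDual ℝ Y)) :=
    T.isometry.isClosedEmbedding.isClosed_range
  have hF : ∃ x, x ∉ F := by
    by_contra hc
    push Not at hc
    exact hT fun x => hc x
  obtain ⟨x₀, -, h1, h2⟩ := riesz_lemma_of_lt_one hFc hF h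
  exact ⟨x₀, h1.le, fun y => h2 _ ⟨y, rfl⟩⟩

lemma lower {θ : ℝ} (hΦ : ∀ y : X, θ ≤ ‖Φ - NormedSpace.inclusionInDoubleDual ℝ X y‖)
    {B : Ultrafilter X} {s : ℝ} (hB : HL Φ B s) (hs : |s| = 2) {t : ℝ} (ht : t < 2 * θ) (v : X) :
    ∀ᶠ b in (B : Filter X), t < ‖v + b‖ := by
  have hs0 : s ≠ 0 := by
    intro h; rw [h] at hs; norm_num at hs
  set Ψ := NormedSpace.inclusionInDoubleDual ℝ X v + s • Φ with hΨ
  have h1 : Ψ = s • (Φ - NormedSpace.inclusionInDoubleDual ℝ X ((-s⁻¹) • v)) := by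
    ext φ
    simp [hΨ]
    field_simp
    ring
  have h2 : t < ‖Ψ‖ := by
    rw [h1, norm_smul_dual, hs]
    have := hΦ ((-s⁻¹) • v)
    linarith
  obtain ⟨φ, hφ, hφ'⟩ := Ψ.exists_lt_apply_of_lt_opNorm h2
  have h3 : Ψ φ = φ v + s * Φ φ := by
    simp [hΨ]
  rw [h3, Real.norm_eq_abs] at hφ'
  filter_upwards [hB φ (|φ v + s * Φ φ| - t) (by linarith)] with b hb
  have h4 : |φ (v + b)| ≤ ‖v + b‖ := by
    have := φ.le_opNorm (v + b)
    rw [Real.norm_eq_abs] at this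
    nlinarith [norm_nonneg (v + b), norm_nonneg φ]
  have h5 : |φ v + s * Φ φ| ≤ |φ (v + b)| + |φ b - s * Φ φ| := by
    have : φ v + s * Φ φ = φ (v + b) - (φ b - s * Φ φ) := by rw [map_add]; ring
    rw [this]
    exact abs_sub _ _
  linarith

lemma exists_ultra (hΦ : ‖Φ‖ ≤ 1) :
    ∃ U : Ultrafilter X, (∀ᶠ y in (U : Filter X), ‖y‖ ≤ 1) ∧ HL Φ U 1 := by
  classical
  let S : Finset (StrongDual ℝ X) × ℕ → Set X := fun p =>
    {y | ‖y‖ ≤ 1 ∧ ∀ φ ∈ p.1, |φ y - Φ φ| < 1 / ((p.2 : ℝ) + 1)}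
  have hdir : Directed (· ≥ ·) (fun p => 𝓟 (S p)) := by
    intro p q
    refine ⟨(p.1 ∪ q.1, max p.2 q.2), ?_, ?_⟩
    · simp only [ge_iff_le, principal_mono]
      rintro y ⟨h1, h2⟩
      refine ⟨h1, fun φ hφ => (h2 φ (Finset.mem_union_left _ hφ)).trans_le ?_⟩
      gcongr
      exact_mod_cast le_max_left _ _
    · simp only [ge_iff_le, principal_mono]
      rintro y ⟨h1, h2⟩
      refine ⟨h1, fun φ hφ => (h2 φ (Finset.mem_union_right _ hφ)).trans_le ?_⟩
      gcongr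
      exact_mod_cast le_max_right _ _
  have hne : ∀ p, (𝓟 (S p)).NeBot := by
    intro p
    rw [principal_neBot_iff]
    obtain ⟨y, hy, hy'⟩ := Pool.Agent.Helper176.LJ.helly Φ hΦ p.1
      (show 0 < 1 / ((p.2 : ℝ) + 1) by positivity)
    exact ⟨y, hy, hy'⟩
  have : (⨅ p, 𝓟 (S p)).NeBot := iInf_neBot_of_directed hdir hne
  refine ⟨Ultrafilter.of (⨅ p, 𝓟 (S p)), ?_, ?_⟩
  · have h : S (∅, 0) ∈ (⨅ p, 𝓟 (S p)) := mem_iInf_of_mem (∅, 0) (mem_principal_self _)
    filter_upwards [Ultrafilter.of_le _ h] with y hy using hy.1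
  · intro φ ε hε
    obtain ⟨n, hn⟩ := exists_nat_one_div_lt hε
    have h : S ({φ}, n) ∈ (⨅ p, 𝓟 (S p)) := mem_iInf_of_mem ({φ}, n) (mem_principal_self _)
    filter_upwards [Ultrafilter.of_le _ h] with y hy
    rw [one_mul]
    exact (hy.2 φ (Finset.mem_singleton_self _)).trans hn

lemma select {α : Type*} (V : Filter α) [V.NeBot] (P : α → Prop) (R : α → α → Prop)
    (hP : ∀ᶠ y in V, P y) (hR : ∀ᶠ y in V, ∀ᶠ y' in V, R y y') :
    ∃ s : ℕ → α, (∀ n, P (s n)) ∧ ∀ m n, m < n → R (s m) (s n) := by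
  obtain ⟨f, hf, hf'⟩ := exists_seq_of_forall_finset_exists
    (fun y => P y ∧ ∀ᶠ y' in V, R y y') R (fun s hs => by
      have h1 : ∀ᶠ y' in V, ∀ x ∈ s, R x y' :=
        (eventually_all_finset s).2 fun x hx => (hs x hx).2
      obtain ⟨y, hy⟩ := ((hP.and hR).and h1).exists
      exact ⟨y, hy.1, hy.2⟩)
  exact ⟨f, fun n => (hf n).1, hf'⟩

lemma principle {d : ℝ}
    (hno : ¬ ∃ x : ℕ → X, (∀ n, ‖x n‖ ≤ 1) ∧
      ∀ n m : ℕ, n ≠ m → d ≤ ‖x n + x m‖ ∧ d ≤ ‖x n - x m‖)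
    (V : Ultrafilter X) (z : X) {C : ℝ} (hC : 0 < C) (h : ∀ᶠ y in (V : Filter X), ‖z + y‖ ≤ C) :
    (∀ᶠ y in (V : Filter X), ∀ᶠ y' in (V : Filter X), ‖y - y'‖ < d * C) ∨
      (∀ᶠ y in (V : Filter X), ∀ᶠ y' in (V : Filter X), ‖z + z + (y + y')‖ < d * C) := by
  by_contra hcon
  rw [not_or] at hcon
  obtain ⟨h1, h2⟩ := hcon
  rw [← Ultrafilter.eventually_not] at h1 h2
  simp only [← Ultrafilter.eventually_not, not_lt] at h1 h2
  have h3 : ∀ᶠ y in (V : Filter X), ∀ᶠ y' in (V : Filter X),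
      d * C ≤ ‖y - y'‖ ∧ d * C ≤ ‖z + z + (y + y')‖ := by
    filter_upwards [h1, h2] with y a b
    exact a.and b
  obtain ⟨s, hs, hs'⟩ := select (V : Filter X) _ _ h h3
  apply hno
  have key : ∀ m n, m < n → d ≤ ‖C⁻¹ • (z + s m) + C⁻¹ • (z + s n)‖ ∧
      d ≤ ‖C⁻¹ • (z + s m) - C⁻¹ • (z + s n)‖ := by
    intro m n hmn
    obtain ⟨a, b⟩ := hs' m n hmn
    rw [← smul_add, ← smul_sub, norm_smul, norm_smul, norm_inv, Real.norm_eq_abs, abs_of_pos hC]
    have e1 : z + s m + (z + s n) = z + z + (s m + s n) := by abel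
    have e2 : z + s m - (z + s n) = s m - s n := by abel
    rw [e1, e2, le_inv_mul_iff₀ hC, le_inv_mul_iff₀ hC, mul_comm C d]
    exact ⟨b, a⟩
  refine ⟨fun n => C⁻¹ • (z + s n), fun n => ?_, fun n m hnm => ?_⟩
  · rw [norm_smul, norm_inv, Real.norm_eq_abs, abs_of_pos hC, inv_mul_le_iff₀ hC, mul_one]
    exact hs n
  · rcases lt_or_gt_of_ne hnm with h' | h'
    · exact key n m h'
    · have := key m n h'
      rw [add_comm, norm_sub_rev] at this
      exact this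

lemma contra {α : Type*} {V : Ultrafilter α} {f : α → α → ℝ} {t : ℝ}
    (h1 : ∀ᶠ y in (V : Filter α), ∀ᶠ y' in (V : Filter α), f y y' < t)
    (h2 : ∀ᶠ y in (V : Filter α), ∀ᶠ y' in (V : Filter α), t < f y y') : False := by
  obtain ⟨y, a, b⟩ := (h1.and h2).exists
  obtain ⟨y', a', b'⟩ := (a.and b).exists
  linarith

theorem main [CompleteSpace X]
    (hX : ¬ Function.Surjective (NormedSpace.inclusionInDoubleDual ℝ X))
    {d : ℝ} (hd1 : 1 ≤ d) (hd : d ^ 4 < 2) :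
    ∃ x : ℕ → X, (∀ n, ‖x n‖ ≤ 1) ∧
      ∀ n m : ℕ, n ≠ m → d ≤ ‖x n + x m‖ ∧ d ≤ ‖x n - x m‖ := by
  by_contra hno
  set θ : ℝ := (d ^ 4 / 2 + 1) / 2 with hθ
  have hθ1 : θ < 1 := by rw [hθ]; linarith
  have hθ2 : d ^ 4 < 2 * θ := by rw [hθ]; linarith
  have hd0 : 0 < d := by linarith
  have p2 : d ≤ d * d := by nlinarith
  have p3 : d * d ≤ d * (d * d) := by nlinarith
  have p4 : d * (d * d) ≤ d * (d * (d * d)) := by nlinarith
  have p5 : d * (d * (d * d)) = d ^ 4 := by ring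
  obtain ⟨Φ, hΦ1, hΦ⟩ : ∃ Φ : StrongDual ℝ (StrongDual ℝ X), ‖Φ‖ ≤ 1 ∧
      ∀ y : X, θ ≤ ‖Φ - NormedSpace.inclusionInDoubleDual ℝ X y‖ :=
    riesz_dual _ (NormedSpace.inclusionInDoubleDualLi (E := X) ℝ) hX hθ1
  obtain ⟨U, hU1, hU⟩ := exists_ultra hΦ1
  -- step 1
  have H1 : ∀ᶠ y in (U : Filter X), ∀ᶠ y' in (U : Filter X), ‖y - y'‖ < d * 1 := by
    rcases principle hno U 0 one_pos (by simpa using hU1) with h | h
    · exact h
    · exfalso
      have := lower hΦ (hU.ad hU) (by norm_num) (t := d * 1) (by linarith) (0 + 0)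
      rw [ev_ad] at this
      exact contra h this
  set D : Ultrafilter X := ad U (sm (-1) U) with hD
  have hDl : HL Φ D (1 + -1 * 1) := hU.ad (hU.sm (-1))
  have H1' : ∀ᶠ w in (D : Filter X), ‖0 + w‖ ≤ d := by
    rw [hD, ev_ad]
    filter_upwards [H1] with y hy
    rw [ev_sm]
    filter_upwards [hy] with y' hy'
    rw [zero_add, neg_one_smul, ← sub_eq_add_neg]
    linarith
  -- step 2
  have H2 : ∀ᶠ y in (D : Filter X), ∀ᶠ y' in (D : Filter X), ‖y - y'‖ ≤ d * (d * d) := by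
    rcases principle hno D 0 hd0 H1' with h | h
    · filter_upwards [h] with y hy
      filter_upwards [hy] with y' hy'
      linarith
    · have h1 : ∀ᶠ z in (D : Filter X), ∀ᶠ y in (D : Filter X), ∀ᶠ y' in (D : Filter X),
          d * (d * d) < ‖z + z + (y + y')‖ := by
        rw [hD, ev_ad]
        refine Eventually.of_forall fun a => ?_
        have := lower hΦ ((hU.sm (-2)).ad (hDl.ad hDl)) (by norm_num) (t := d * (d * d))
          (by linarith) (a + a)
        rw [ev_ad, ev_sm] at this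
        rw [ev_sm]
        filter_upwards [this] with b hb
        rw [ev_ad] at hb
        filter_upwards [hb] with y hy
        filter_upwards [hy] with y' hy'
        have e : a + (-1 : ℝ) • b + (a + (-1 : ℝ) • b) + (y + y') =
            a + a + ((-2 : ℝ) • b + (y + y')) := by
          module
        rw [e]; exact hy'
      obtain ⟨z, hz, hz'⟩ := (h.and h1).exists
      have hz2 : ∀ᶠ y in (D : Filter X), ‖z + y‖ ≤ d * d := by
        filter_upwards [hz] with y hy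
        rw [zero_add, zero_add] at hy
        exact hy.le
      rcases principle hno D z (by positivity) hz2 with h' | h'
      · filter_upwards [h'] with y hy
        filter_upwards [hy] with y' hy'
        exact hy'.le
      · exact (contra h' hz').elim
  -- step 3
  set W : Ultrafilter X := ad (sm (-1) U) (sm (-1) D) with hW
  have hWl : HL Φ W (-1 * 1 + -1 * (1 + -1 * 1)) := (hU.sm (-1)).ad (hDl.sm (-1))
  have H3 : ∀ᶠ a in (U : Filter X), ∀ᶠ y in (W : Filter X), ‖a + y‖ ≤ d * (d * d) := by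
    have H2' := H2
    rw [hD, ev_ad] at H2'
    filter_upwards [H2'] with a ha
    rw [ev_sm] at ha
    rw [hW, ev_ad, ev_sm]
    filter_upwards [ha] with b hb
    rw [ev_sm]
    filter_upwards [hb] with w hw
    have e : a + ((-1 : ℝ) • b + (-1 : ℝ) • w) = a + (-1 : ℝ) • b - w := by module
    rw [e]; exact hw
  obtain ⟨a, ha⟩ := H3.exists
  rcases principle hno W a (by positivity) ha with h | h
  · refine contra h ?_
    rw [hW, ev_ad, ev_sm]
    refine Eventually.of_forall fun b => ?_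
    rw [ev_sm, hD, ev_ad]
    refine Eventually.of_forall fun c => ?_
    rw [ev_sm]
    have := lower hΦ (hU.ad (hWl.sm (-1))) (by norm_num) (t := d * (d * (d * d)))
      (by linarith) (-b - c)
    rw [ev_ad] at this
    filter_upwards [this] with e he
    rw [ev_sm] at he
    filter_upwards [he] with y' hy'
    have e' : (-1 : ℝ) • b + (-1 : ℝ) • (c + (-1 : ℝ) • e) - y' =
        -b - c + (e + (-1 : ℝ) • y') := by module
    rw [e']; exact hy'
  · refine contra h ?_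
    have := lower hΦ (hWl.ad hWl) (by norm_num) (t := d * (d * (d * d))) (by linarith) (a + a)
    rw [ev_ad] at this
    exact this

end Pool.Agent.H138Z.Kott
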