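import Mathlib
import Pool.Agent.H319R2.Cycle

/-!
Narrow cycles of the 3x+1 map on the integers: counting parity words confined to a band.
-/

set_option autoImplicit false

namespace Pool.Agent.H138Z.Narrow

open Finset Filter Topology Pool.Agent.H319R2

open Classical in
/-- the times `i < n` at which the rotation visits the window -/
noncomputable def vis (α w β : ℝ) (n : ℕ) : Finset ℕ :=
  (range n).filter fun i => ∃ a : ℤ, β ≤ a - i * α ∧ a - i * α ≤ β + w

lemma block {α : ℝ} (hα : Irrational α) {w η : ℝ} (hw : 0 ≤ w) (hη : 0 < η) :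
    ∃ q : ℕ, 0 < q ∧ ∀ β : ℝ, ((vis α w β q).card : ℝ) ≤ (w + η) * q := by
  classical
  obtain ⟨N, hN⟩ := exists_nat_gt (3 / η)
  obtain ⟨ε, hε, hε'⟩ : ∃ ε > 0, ∀ r : ℚ, r.den ≤ N → ε ≤ dist α r := by
    have h := hα.eventually_forall_le_dist_cast_rat_of_den_le N
    obtain ⟨ε, h1, h2⟩ := ((h.filter_mono nhdsWithin_le_nhds).and
      (self_mem_nhdsWithin (a := (0 : ℝ)) (s := Set.Ioi 0))).exists
    exact ⟨ε, h2, h1⟩
  obtain ⟨n, hn⟩ := exists_nat_one_div_lt hε
  obtain ⟨r, hr, hrn⟩ := Real.exists_rat_abs_sub_le_and_den_le α (Nat.succ_pos n)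
  have hd : (1 : ℝ) ≤ r.den := by exact_mod_cast r.den_pos
  have hn0 : (0 : ℝ) ≤ n := Nat.cast_nonneg n
  push_cast at hr
  have hden : N < r.den := by
    by_contra h
    have h1 := hε' r (not_lt.1 h)
    rw [Real.dist_eq] at h1
    have h2 : 1 / (((n : ℝ) + 1 + 1) * r.den) ≤ 1 / ((n : ℝ) + 1) := by
      apply one_div_le_one_div_of_le (by positivity)
      nlinarith
    linarith
  have hr2 : |α - r| * ((r.den : ℝ) * r.den) ≤ 1 := by
    have h1 : (r.den : ℝ) ≤ n + 1 := by exact_mod_cast hrn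
    rw [le_div_iff₀ (by positivity)] at hr
    have := abs_nonneg (α - r)
    have h2 : (r.den : ℝ) * r.den ≤ ((n : ℝ) + 1 + 1) * r.den := by nlinarith
    nlinarith
  refine ⟨r.den, r.den_pos, fun β => ?_⟩
  set q : ℝ := (r.den : ℝ) with hq
  have hch : ∀ i : ℕ, ∃ a : ℤ, i ∈ vis α w β r.den → β ≤ a - i * α ∧ a - i * α ≤ β + w := by
    intro i
    by_cases h : i ∈ vis α w β r.den
    · obtain ⟨a, ha⟩ := (mem_filter.1 h).2
      exact ⟨a, fun _ => ha⟩
    · exact ⟨0, fun h' => absurd h' h⟩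
  choose a ha using hch
  have hrq : (r : ℝ) * q = r.num := by
    rw [hq]
    exact_mod_cast Rat.mul_den_eq_num r
  have h1 : (vis α w β r.den).card ≤ (Icc ⌈q * β - 1⌉ ⌊q * β + q * w + 1⌋).card := by
    refine card_le_card_of_injOn (fun i => a i * r.den - i * r.num) (fun i hi => ?_)
      (fun i hi j hj hij => ?_)
    · have hi' : i ∈ vis α w β r.den := hi
      obtain ⟨b1, b2⟩ := ha i hi'
      have b3 : (i : ℝ) ≤ q := by
        rw [hq]; exact_mod_cast (mem_range.1 (mem_filter.1 hi').1).le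
      have b4 : |(i : ℝ) * q * (α - r)| ≤ 1 := by
        rw [abs_mul, abs_of_nonneg (by positivity)]
        have := abs_nonneg (α - r)
        have b5 : (i : ℝ) * q ≤ q * q := by nlinarith
        nlinarith
      rw [abs_le] at b4
      have b5 : ((a i * r.den - i * r.num : ℤ) : ℝ) = q * (a i - i * α) + i * q * (α - r) := by
        push_cast
        rw [← hrq, ← hq]; ring
      simp only [coe_Icc, Set.mem_Icc]
      rw [Int.ceil_le, Int.le_floor, b5]
      constructor <;> nlinarith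
    · have hi' := mem_range.1 (mem_filter.1 (show i ∈ vis α w β r.den from hi)).1
      have hj' := mem_range.1 (mem_filter.1 (show j ∈ vis α w β r.den from hj)).1
      simp only at hij
      have c1 : (r.den : ℤ) ∣ ((i : ℤ) - j) * r.num := ⟨a i - a j, by linear_combination -hij⟩
      have c2 : IsCoprime (r.den : ℤ) r.num := by
        rw [Int.isCoprime_iff_gcd_eq_one, Int.gcd_comm]
        exact r.reduced
      have c3 := c2.dvd_of_dvd_mul_right c1
      have c4 := Int.eq_zero_of_abs_lt_dvd c3 (by rw [abs_lt]; constructor <;> omega)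
      omega
  have h2 : ((Icc ⌈q * β - 1⌉ ⌊q * β + q * w + 1⌋).card : ℝ) ≤ q * w + 3 := by
    rw [Int.card_Icc]
    have c1 := Int.le_ceil (q * β - 1)
    have c2 := Int.floor_le (q * β + q * w + 1)
    have c3 : 0 ≤ q * w := by positivity
    rcases le_total 0 (⌊q * β + q * w + 1⌋ + 1 - ⌈q * β - 1⌉) with h | h
    · have : (((⌊q * β + q * w + 1⌋ + 1 - ⌈q * β - 1⌉).toNat : ℤ) : ℝ) =
          ((⌊q * β + q * w + 1⌋ + 1 - ⌈q * β - 1⌉ : ℤ) : ℝ) := by rw [Int.toNat_of_nonneg h]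
      rw [Int.cast_natCast] at this
      rw [this]
      push_cast
      linarith
    · rw [Int.toNat_eq_zero.2 h]
      push_cast
      linarith
  have h3 : ((vis α w β r.den).card : ℝ) ≤ q * w + 3 := le_trans (by exact_mod_cast h1) h2
  have h4 : (N : ℝ) < q := by rw [hq]; exact_mod_cast hden
  rw [div_lt_iff₀ hη] at hN
  nlinarith

lemma vis_add (α w β : ℝ) (n q : ℕ) :
    (vis α w β (n + q)).card ≤ (vis α w β n).card + (vis α w (β + n * α) q).card := by
  classical
  have h : vis α w β (n + q) ⊆ vis α w β n ∪ (vis α w (β + n * α) q).image (n + ·) := by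
    intro i hi
    obtain ⟨h1, a, h2, h3⟩ := mem_filter.1 hi
    rw [mem_range] at h1
    by_cases h : i < n
    · exact mem_union_left _ (mem_filter.2 ⟨mem_range.2 h, a, h2, h3⟩)
    · obtain ⟨k, rfl⟩ := Nat.exists_eq_add_of_le (not_lt.1 h)
      refine mem_union_right _ (mem_image.2 ⟨k, mem_filter.2 ⟨mem_range.2 (by omega), a, ?_, ?_⟩,
        rfl⟩)
      · push_cast at h2; linarith
      · push_cast at h3; linarith
  exact (card_le_card h).trans ((card_union_le _ _).trans (Nat.add_le_add_left card_image_le _))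

lemma vis_bound {α : ℝ} (hα : Irrational α) {w η : ℝ} (hw : 0 ≤ w) (hη : 0 < η) :
    ∃ q : ℕ, ∀ (β : ℝ) (n : ℕ), ((vis α w β n).card : ℝ) ≤ (w + η) * (n + q) := by
  obtain ⟨q, hq, h⟩ := block hα hw hη
  have h1 : ∀ (k : ℕ) (β : ℝ), ((vis α w β (k * q)).card : ℝ) ≤ (w + η) * (k * q) := by
    intro k
    induction k with
    | zero => intro β; simp [vis]
    | succ k ih =>
      intro β
      have h2 := vis_add α w β (k * q) q
      have h3 : ((vis α w β (k * q + q)).card : ℝ) ≤ (vis α w β (k * q)).card +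
        (vis α w (β + (k * q : ℕ) * α) q).card := by exact_mod_cast h2
      have h4 := ih β
      have h5 := h (β + (k * q : ℕ) * α)
      rw [add_mul k 1 q, one_mul]
      push_cast
      linarith
  refine ⟨q, fun β n => ?_⟩
  have h2 : n ≤ (n / q + 1) * q := by
    have := Nat.lt_mul_div_succ n hq
    rw [mul_comm] at this
    exact this.le
  have h3 : (vis α w β n).card ≤ (vis α w β ((n / q + 1) * q)).card := by
    classical
    exact card_le_card (filter_subset_filter _ (range_subset_range.2 h2))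
  have h4 : (((n / q + 1 : ℕ) : ℝ) * q) ≤ n + q := by
    have : (n / q + 1) * q ≤ n + q := by
      rw [add_mul, one_mul]
      exact Nat.add_le_add_right (Nat.div_mul_le_self n q) q
    exact_mod_cast this
  calc ((vis α w β n).card : ℝ) ≤ (vis α w β ((n / q + 1) * q)).card := by exact_mod_cast h3
    _ ≤ (w + η) * (((n / q + 1 : ℕ) : ℝ) * q) := h1 _ β
    _ ≤ _ := by gcongr

lemma irr : Irrational (Real.log 2 / Real.log 3) := by
  rintro ⟨r, hr⟩
  obtain ⟨c, hc, h⟩ := Pool.Agent.H319R2.measure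
  have h1 := h r.den (-r.num) (Or.inl (by exact_mod_cast r.den_nz))
  have h3 : 0 < Real.log 3 := Real.log_pos (by norm_num)
  have h2 : ((r.den : ℤ) : ℝ) * Real.log 2 + ((-r.num : ℤ) : ℝ) * Real.log 3 = 0 := by
    have e : (r : ℝ) * r.den = r.num := by exact_mod_cast Rat.mul_den_eq_num r
    rw [eq_div_iff h3.ne'] at hr
    push_cast
    rw [← hr, ← e]; ring
  rw [h2, abs_zero, mul_zero] at h1
  linarith

lemma par_eq {x y : ℤ} {n : ℕ} (h : ∀ j ≤ n, od j x = od j y) :
    ∀ i < n, (T^[i] x) % 2 = (T^[i] y) % 2 := by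
  intro i hi
  have h1 := h i hi.le
  have h2 := h (i + 1) hi
  rcases par (T^[i] x) with a | a <;> rcases par (T^[i] y) with b | b
  · rw [a, b]
  · rw [od_succ_even a, od_succ_odd b] at h2; omega
  · rw [od_succ_odd a, od_succ_even b] at h2; omega
  · rw [a, b]

lemma count {L ε w m M : ℝ} (hε : 0 < ε) (hm : 1 ≤ m) (hM : Real.log M = Real.log m + L)
    (hw : w = (L + 3 * ε) / Real.log 3 - 1) (hw1 : w < 1) {K n : ℕ} (hK : L ≤ K * ε)
    (hn : (n : ℝ) ≤ 2 * m * ε) (hn2 : 2 * M < 2 ^ n) {B : ℕ}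
    (hB : ∀ β, (vis (Real.log 2 / Real.log 3) w β (n + 1)).card ≤ B) (Z : Finset ℤ)
    (hZ : ∀ y ∈ Z, ∀ j, m ≤ |((T^[j] y : ℤ) : ℝ)| ∧ |((T^[j] y : ℤ) : ℝ)| ≤ M) :
    Z.card ≤ (K + 1) * 2 ^ B := by
  classical
  have h3 : 0 < Real.log 3 := Real.log_pos (by norm_num)
  set α := Real.log 2 / Real.log 3 with hα
  let c : ℤ → ℕ := fun y => ⌊(Real.log |(y : ℝ)| - Real.log m) / ε⌋₊
  let β : ℕ → ℝ := fun k => -((k + 2) * ε) / Real.log 3
  let a0 : ℕ → ℕ → ℤ := fun k j => ⌈β k + j * α⌉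
  have hlog : ∀ y ∈ Z, ∀ j, Real.log m ≤ Real.log |((T^[j] y : ℤ) : ℝ)| ∧
      Real.log |((T^[j] y : ℤ) : ℝ)| ≤ Real.log m + L := by
    intro y hy j
    obtain ⟨h1, h2⟩ := hZ y hy j
    exact ⟨Real.log_le_log (by linarith) h1, hM ▸ Real.log_le_log (by linarith) h2⟩
  have hc : ∀ y ∈ Z, (c y : ℝ) * ε ≤ Real.log |(y : ℝ)| - Real.log m ∧
      Real.log |(y : ℝ)| - Real.log m < (c y + 1) * ε := by
    intro y hy
    have h1 := (hlog y hy 0).1
    simp only [Function.iterate_zero, id] at h1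
    have h2 : 0 ≤ (Real.log |(y : ℝ)| - Real.log m) / ε := div_nonneg (by linarith) hε.le
    exact ⟨(le_div_iff₀ hε).1 (Nat.floor_le h2), (div_lt_iff₀ hε).1 (Nat.lt_floor_add_one _)⟩
  have hcK : ∀ y ∈ Z, c y ∈ range (K + 1) := by
    intro y hy
    have h1 := (hlog y hy 0).2
    simp only [Function.iterate_zero, id] at h1
    have h2 : (c y : ℝ) * ε ≤ K * ε := by linarith [(hc y hy).1]
    have h4 : (c y : ℝ) ≤ K := le_of_mul_le_mul_right h2 hε
    have : c y ≤ K := by exact_mod_cast h4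
    exact mem_range.2 (by omega)
  have hod : ∀ y ∈ Z, ∀ j ≤ n, β (c y) ≤ od j y - j * α ∧ od j y - j * α ≤ β (c y) + 1 + w := by
    intro y hy j hj
    have h1 := log_iter hm (fun i => (hZ y hy i).1) j
    have h2 : (od j y : ℝ) * (1 / (2 * m)) ≤ ε := by
      have : (od j y : ℝ) ≤ n := by exact_mod_cast (od_le j y).trans hj
      rw [mul_one_div, div_le_iff₀ (by linarith)]
      linarith
    have h4 := abs_le.1 (h1.trans h2)
    obtain ⟨h5, h6⟩ := hlog y hy j
    obtain ⟨h7, h8⟩ := hc y hy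
    have e1 : (od j y : ℝ) - j * α = (od j y * Real.log 3 - j * Real.log 2) / Real.log 3 := by
      rw [hα]; field_simp
    have e2 : β (c y) + 1 + w = (-((c y + 2) * ε) + L + 3 * ε) / Real.log 3 := by
      rw [hw]; simp only [β]; ring
    rw [e1, e2]
    simp only [β]
    constructor <;> apply div_le_div_of_nonneg_right _ h3.le <;> linarith [h4.1, h4.2]
  have hod2 : ∀ y ∈ Z, ∀ j ≤ n, (od j y : ℤ) = a0 (c y) j ∨
      ((od j y : ℤ) = a0 (c y) j + 1 ∧ j ∈ vis α w (β (c y)) (n + 1)) := by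
    intro y hy j hj
    obtain ⟨h1, h2⟩ := hod y hy j hj
    have h4 : a0 (c y) j ≤ od j y := by
      simp only [a0]
      rw [Int.ceil_le]; push_cast; linarith
    have h5 := Int.le_ceil (β (c y) + j * α)
    have h6 : ((od j y : ℤ) : ℝ) < ((a0 (c y) j + 2 : ℤ) : ℝ) := by
      simp only [a0]; push_cast; linarith
    have h7 : (od j y : ℤ) < a0 (c y) j + 2 := by exact_mod_cast h6
    rcases eq_or_lt_of_le h4 with h | h
    · exact Or.inl h.symm
    · have h8 : (od j y : ℤ) = a0 (c y) j + 1 := by omega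
      refine Or.inr ⟨h8, mem_filter.2 ⟨mem_range.2 (by omega), a0 (c y) j, ?_, ?_⟩⟩
      · simp only [a0]; linarith
      · have h9 : ((od j y : ℤ) : ℝ) = ((a0 (c y) j + 1 : ℤ) : ℝ) := by rw [h8]
        push_cast at h9
        linarith
  have hfib : ∀ k ∈ range (K + 1), (Z.filter fun y => c y = k).card ≤ 2 ^ B := by
    intro k _
    refine le_trans (card_le_card_of_injOn (t := (vis α w (β k) (n + 1)).powerset)
      (fun y => (vis α w (β k) (n + 1)).filter fun j => (od j y : ℤ) = a0 k j + 1)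
      (fun y _ => mem_powerset.2 (filter_subset _ _)) (fun y hy y' hy' h => ?_)) ?_
    · obtain ⟨hy, hyk⟩ := mem_filter.1 hy
      obtain ⟨hy', hyk'⟩ := mem_filter.1 hy'
      have h1 : ∀ j ≤ n, od j y = od j y' := by
        intro j hj
        have h2 := hod2 y hy j hj
        have h4 := hod2 y' hy' j hj
        rw [hyk] at h2
        rw [hyk'] at h4
        have h5 := Finset.ext_iff.1 h j
        simp only [mem_filter] at h5
        rcases h2 with h2 | h2 <;> rcases h4 with h4 | h4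
        · omega
        · have := (h5.2 ⟨h4.2, h4.1⟩).2; omega
        · have := (h5.1 ⟨h2.2, h2.1⟩).2; omega
        · omega
      have h2 := same_par n y y' (par_eq h1)
      have h4 := (hZ y hy 0).2
      have h5 := (hZ y' hy' 0).2
      simp only [Function.iterate_zero, id] at h4 h5
      have h6 : |((y - y' : ℤ) : ℝ)| < ((2 ^ n : ℤ) : ℝ) := by
        push_cast
        have := abs_sub (y : ℝ) y'
        linarith
      have h7 : |y - y'| < 2 ^ n := by exact_mod_cast h6
      have := Int.eq_zero_of_abs_lt_dvd h2 h7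
      omega
    · rw [card_powerset]
      exact Nat.pow_le_pow_right (by norm_num) (hB _)
  have := card_le_mul_card_image_of_maps_to hcK _ hfib
  rw [card_range] at this
  linarith

lemma key {R : ℝ} (hR3 : 3 ≤ R) (hR : R < 3 ^ (15 / 14 : ℝ)) :
    ∃ B : ℝ, ∀ (x : ℤ) (p : ℕ), 0 < p → T^[p] x = x → (∀ j, |x| ≤ |T^[j] x|) →
      (∀ j, |((T^[j] x : ℤ) : ℝ)| ≤ R * |(x : ℝ)|) → |(x : ℝ)| ≤ B := by
  classical
  have h3 : 0 < Real.log 3 := Real.log_pos (by norm_num)
  have hR0 : 0 < R := by linarith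
  set L := Real.log R with hL
  have hL1 : Real.log 3 ≤ L := Real.log_le_log (by norm_num) hR3
  have hL2 : L < 15 / 14 * Real.log 3 := by
    have := Real.log_lt_log hR0 hR
    rwa [Real.log_rpow (by norm_num)] at this
  have hR4 : R < 4 := by
    have h1 : Real.log 3 ^ 1 = Real.log 3 := pow_one _
    have h2 : 15 * Real.log 3 ≤ 14 * Real.log 4 := by
      have := Real.log_le_log (by norm_num) (show (3 : ℝ) ^ 15 ≤ 4 ^ 14 by norm_num)
      simpa [Real.log_pow] using this
    exact (Real.log_lt_log_iff hR0 (by norm_num)).1 (by linarith)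
  set ε := (15 / 14 * Real.log 3 - L) / 4 with hε
  have hε0 : 0 < ε := by rw [hε]; linarith
  set w := (L + 3 * ε) / Real.log 3 - 1 with hw
  have hw0 : 0 ≤ w := by
    rw [hw, sub_nonneg, le_div_iff₀ h3]; linarith
  have hw1 : w < 1 / 14 := by
    rw [hw, sub_lt_iff_lt_add, div_lt_iff₀ h3]; linarith
  set η := (1 / 14 - w) / 2 with hη
  have hη0 : 0 < η := by rw [hη]; linarith
  set θ := w + η with hθ
  have hθ0 : 0 ≤ θ := by rw [hθ]; linarith
  have hθ1 : 14 * θ < 1 := by rw [hθ, hη]; linarith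
  obtain ⟨q, hq⟩ := vis_bound irr hw0 hη0
  obtain ⟨K, hK⟩ := exists_nat_ge (L / ε)
  rw [div_le_iff₀ hε0] at hK
  obtain ⟨C, hC1, hC⟩ := min_bound
  set ρ : ℝ := 2 ^ (1 - 14 * θ) with hρ
  have hρ1 : 1 < ρ := Real.one_lt_rpow (by norm_num) (by linarith)
  set D : ℝ := 16 * C * ((K + 1) * 2 ^ (θ * (1 + q))) ^ 14 with hD
  have e1 : ∀ᶠ n : ℕ in atTop, D < ρ ^ n :=
    (tendsto_pow_atTop_atTop_of_one_lt hρ1).eventually_gt_atTop D
  have e2 : ∀ᶠ n : ℕ in atTop, (n : ℝ) ^ 1 / 2 ^ n < ε / 8 :=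
    (tendsto_pow_const_div_const_pow_of_one_lt 1 (by norm_num : (1 : ℝ) < 2)).eventually_lt_const
      (by linarith)
  obtain ⟨n0, hn0⟩ := eventually_atTop.1 (e1.and e2)
  refine ⟨2 ^ n0, fun x p hp hper hmin hmax => ?_⟩
  by_contra hcon
  rw [not_le] at hcon
  have hx0 : x ≠ 0 := by
    rintro rfl
    simp only [Int.cast_zero, abs_zero] at hcon
    exact absurd hcon (not_lt.2 (by positivity))
  set m : ℝ := |(x : ℝ)| with hm
  have hmn : m = (x.natAbs : ℝ) := by rw [hm, Nat.cast_natAbs, Int.cast_abs]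
  have hx1 : x.natAbs ≠ 0 := Int.natAbs_ne_zero.2 hx0
  have hm1 : 1 ≤ m := by rw [hmn]; exact_mod_cast Nat.pos_of_ne_zero hx1
  set l := Nat.log 2 x.natAbs with hl
  have hl1 : (2 : ℝ) ^ l ≤ m := by rw [hmn]; exact_mod_cast Nat.pow_log_le_self 2 hx1
  have hl2 : m < (2 : ℝ) ^ (l + 1) := by
    rw [hmn]; exact_mod_cast Nat.lt_pow_succ_log_self (by norm_num) _
  have hl3 : n0 ≤ l + 4 := by
    have : (2 : ℝ) ^ n0 < 2 ^ (l + 1) := hcon.trans hl2
    have := (pow_lt_pow_iff_right₀ (by norm_num : (1 : ℝ) < 2)).1 this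
    omega
  obtain ⟨f1, f2⟩ := hn0 (l + 4) hl3
  set n := l + 4 with hn
  have g1 : (2 : ℝ) ^ n = 16 * 2 ^ l := by rw [hn, pow_add]; ring
  have g2 : (2 : ℝ) ^ (l + 1) = 2 * 2 ^ l := by rw [pow_add]; ring
  rw [pow_one, div_lt_iff₀ (by positivity)] at f2
  set P := Function.minimalPeriod T x with hP
  have hpp : Function.IsPeriodicPt T p x := hper
  have hP0 : 0 < P := hpp.minimalPeriod_pos hp
  have hcard : ((range P).image fun j => T^[j] x).card = P := by
    rw [card_image_of_injOn, card_range]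
    intro i hi j hj h
    exact Function.iterate_injOn_Iio_minimalPeriod (by simpa using hi) (by simpa using hj) h
  have hcount := count (L := L) (M := R * m) (K := K) (n := n) (B := ⌊θ * (n + 1 + q)⌋₊) hε0 hm1
    (by rw [Real.log_mul hR0.ne' (by linarith), add_comm]) hw (by linarith) hK (by nlinarith)
    (by nlinarith) (fun β => Nat.le_floor (by simpa using hq β (n + 1)))
    ((range P).image fun j => T^[j] x) (fun y hy j => by
      obtain ⟨i, -, rfl⟩ := mem_image.1 hy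
      rw [← Function.iterate_add_apply]
      refine ⟨?_, hmax _⟩
      rw [hm]
      exact_mod_cast hmin (j + i))
  rw [hcard] at hcount
  have k1 : (P : ℝ) ≤ (K + 1) * 2 ^ (θ * (n + 1 + q)) := by
    have k2 : (P : ℝ) ≤ (K + 1) * 2 ^ ⌊θ * (n + 1 + q)⌋₊ := by exact_mod_cast hcount
    refine k2.trans (mul_le_mul_of_nonneg_left ?_ (by positivity))
    rw [← Real.rpow_natCast]
    exact Real.rpow_le_rpow_of_exponent_le (by norm_num) (Nat.floor_le (by positivity))
  have k2 := hC x P hP0 hx0 (Function.isPeriodicPt_minimalPeriod T x) hmin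
  have k3 : (P : ℝ) ^ 14 ≤ ((K + 1) * 2 ^ (θ * (n + 1 + q))) ^ 14 :=
    pow_le_pow_left₀ (by positivity) k1 14
  have k4 : (((K : ℝ) + 1) * 2 ^ (θ * (n + 1 + q))) ^ 14 =
      ((K + 1) * 2 ^ (θ * (1 + q))) ^ 14 * 2 ^ (14 * θ * n) := by
    have : (2 : ℝ) ^ (14 * θ * n) = (2 ^ (θ * n)) ^ 14 := by
      rw [← Real.rpow_natCast, ← Real.rpow_mul (by norm_num)]
      congr 1; push_cast; ring
    rw [this, ← mul_pow, mul_assoc, ← Real.rpow_add (by norm_num)]
    congr 3; ring
  have k5 : ρ ^ n * 2 ^ (14 * θ * n) = 2 ^ n := by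
    rw [hρ, ← Real.rpow_natCast, ← Real.rpow_mul (by norm_num), ← Real.rpow_add (by norm_num),
      ← Real.rpow_natCast]
    congr 1; ring
  have k6 : (0 : ℝ) < 2 ^ (14 * θ * n) := by positivity
  have k7 : D * 2 ^ (14 * θ * n) < 2 ^ n := by
    rw [← k5]; exact mul_lt_mul_of_pos_right f1 k6
  have k8 : m ≤ C * (((K + 1) * 2 ^ (θ * (1 + q))) ^ 14 * 2 ^ (14 * θ * n)) := by
    rw [← k4]
    exact k2.trans (mul_le_mul_of_nonneg_left k3 (by linarith))
  rw [hD] at k7
  nlinarith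

theorem main {R : ℝ} (hR : R < 3 ^ (15 / 14 : ℝ)) :
    {x : ℤ | (∃ p, 0 < p ∧ T^[p] x = x) ∧
      ∀ i j : ℕ, |((T^[i] x : ℤ) : ℝ)| ≤ R * |((T^[j] x : ℤ) : ℝ)|}.Finite := by
  have h1 : (3 : ℝ) < 3 ^ (15 / 14 : ℝ) := by
    have := Real.rpow_lt_rpow_of_exponent_lt (by norm_num : (1 : ℝ) < 3)
      (by norm_num : (1 : ℝ) < 15 / 14)
    rwa [Real.rpow_one] at this
  obtain ⟨B, hB⟩ := key (R := max R 3) (le_max_right _ _) (max_lt hR h1)
  refine (Set.finite_Icc (-⌈max R 3 * B⌉) ⌈max R 3 * B⌉).subset ?_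
  rintro x ⟨⟨p, hp, hper⟩, hx⟩
  have hx' : ∀ i j : ℕ, |((T^[i] x : ℤ) : ℝ)| ≤ max R 3 * |((T^[j] x : ℤ) : ℝ)| := fun i j =>
    (hx i j).trans (mul_le_mul_of_nonneg_right (le_max_left _ _) (abs_nonneg _))
  let i0 := Function.argmin (fun j : ℕ => (T^[j] x).natAbs)
  have h2 := hB (T^[i0] x) p hp
    (by rw [← Function.iterate_add_apply, add_comm, Function.iterate_add_apply, hper])
    (fun j => by
      rw [← Function.iterate_add_apply, ← Int.natCast_natAbs, ← Int.natCast_natAbs]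
      exact_mod_cast Function.argmin_le (fun j : ℕ => (T^[j] x).natAbs) (j + i0))
    (fun j => by rw [← Function.iterate_add_apply]; exact hx' _ _)
  have h3 := hx' 0 i0
  simp only [Function.iterate_zero, id] at h3
  have h4 : |(x : ℝ)| ≤ max R 3 * B :=
    h3.trans (mul_le_mul_of_nonneg_left h2 (by positivity))
  have h5 : ((|x| : ℤ) : ℝ) ≤ (⌈max R 3 * B⌉ : ℤ) := by
    rw [Int.cast_abs]; exact h4.trans (Int.le_ceil _)
  exact abs_le.1 (by exact_mod_cast h5)

end Pool.Agent.H138Z.Narrow
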