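import Mathlib

/-!
Chromatic number versus rank for graphs with a forbidden induced subgraph.
-/

set_option autoImplicit false

namespace Pool.Agent.H138Z.RankChi

open Module Submodule Finset

variable {V : Type*} [Fintype V] [DecidableEq V] (G : SimpleGraph V) [DecidableRel G.Adj]

/-- row of the adjacency matrix -/
def row (i : V) : V → ℝ := fun j => if G.Adj i j then 1 else 0

/-- restriction to a set of coordinates -/
def res (T : Finset V) : (V → ℝ) →ₗ[ℝ] (V → ℝ) where
  toFun x := fun j => if j ∈ T then x j else 0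
  map_add' x y := by funext j; by_cases h : j ∈ T <;> simp [h]
  map_smul' c x := by funext j; by_cases h : j ∈ T <;> simp [h]

omit [Fintype V] in
lemma res_apply (T : Finset V) (x : V → ℝ) (j : V) : res T x j = if j ∈ T then x j else 0 := rfl

omit [Fintype V] in
lemma res_res {T T' : Finset V} (h : T ⊆ T') (x : V → ℝ) : res T (res T' x) = res T x := by
  funext j
  by_cases hj : j ∈ T
  · simp [res_apply, hj, h hj]
  · simp [res_apply, hj]

/-- row space of a submatrix -/
def sp (S T : Finset V) : Submodule ℝ (V → ℝ) := span ℝ ((fun i => res T (row G i)) '' S)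

/-- rank of a submatrix -/
noncomputable def rk (S T : Finset V) : ℕ := finrank ℝ (sp G S T)

variable {G}

omit [Fintype V] in
lemma mem_sp {S T : Finset V} {i : V} (hi : i ∈ S) : res T (row G i) ∈ sp G S T :=
  subset_span ⟨i, hi, rfl⟩

omit [Fintype V] in
lemma sp_mono {S S' : Finset V} (T : Finset V) (h : S ⊆ S') : sp G S T ≤ sp G S' T :=
  span_mono (Set.image_mono h)

omit [Fintype V] in
lemma map_sp (S : Finset V) {T T' : Finset V} (h : T ⊆ T') :
    (sp G S T').map (res T) = sp G S T := by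
  rw [sp, map_span, Set.image_image]
  simp only [res_res h]
  rfl

lemma rk_mono {S S' T T' : Finset V} (h : S ⊆ S') (h' : T ⊆ T') : rk G S T ≤ rk G S' T' := by
  calc rk G S T ≤ rk G S' T := finrank_mono (sp_mono T h)
    _ ≤ rk G S' T' := by
      rw [rk, ← map_sp S' h']
      exact finrank_map_le _ _

omit [DecidableEq V] in
lemma exists_det (U : Submodule ℝ (V → ℝ)) :
    ∃ J : Finset V, J.card ≤ finrank ℝ U ∧ ∀ u ∈ U, (∀ j ∈ J, u j = 0) → u = 0 := by
  classical
  let p : V → Dual ℝ U := fun j => (LinearMap.proj j : (V → ℝ) →ₗ[ℝ] ℝ).domRestrict U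
  obtain ⟨t, hts, hc, hsp, -⟩ := exists_finset_span_eq_linearIndepOn ℝ (Set.range p)
  choose g hg using fun x : t => hts x.2
  refine ⟨Finset.univ.image g, ?_, fun u hu h => ?_⟩
  · calc (Finset.univ.image g).card ≤ (Finset.univ : Finset t).card := card_image_le
      _ = t.card := by simp
      _ ≤ finrank ℝ (Dual ℝ U) := by rw [hc]; exact Submodule.finrank_le _
      _ = finrank ℝ U := Subspace.dual_finrank_eq
  · funext j
    have h1 : p j ∈ span ℝ (t : Set (Dual ℝ U)) := by
      rw [hsp]; exact subset_span ⟨j, rfl⟩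
    have h2 : span ℝ (t : Set (Dual ℝ U)) ≤ LinearMap.ker (Dual.eval ℝ U ⟨u, hu⟩) := by
      rw [span_le]
      intro x hx
      have := h (g ⟨x, hx⟩) (mem_image_of_mem _ (mem_univ _))
      have h3 := hg ⟨x, hx⟩
      simp only at h3
      change x ⟨u, hu⟩ = 0
      rw [← h3]
      exact this
    exact h2 h1

lemma exists_sig (S : Finset V) : ∃ J : Finset V, J.card ≤ rk G S S ∧ ∀ i ∈ S, ∀ i' ∈ S,
    J.filter (G.Adj i) = J.filter (G.Adj i') → ∀ j ∈ S, (G.Adj i j ↔ G.Adj i' j) := by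
  obtain ⟨J, hJ, hJ'⟩ := exists_det (sp G S S)
  refine ⟨J, hJ, fun i hi i' hi' h j hj => ?_⟩
  have h1 := hJ' _ (sub_mem (mem_sp hi) (mem_sp hi')) (fun k hk => by
    have h2 : G.Adj i k ↔ G.Adj i' k := by
      have := Finset.ext_iff.1 h k
      simpa [hk] using this
    simp [res_apply, row, h2])
  have h3 := congrFun h1 j
  simp only [Pi.sub_apply, res_apply, hj, if_true, row, Pi.zero_apply] at h3
  by_cases a : G.Adj i j <;> by_cases b : G.Adj i' j <;> simp_all

/-- independent finite sets -/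
def Ind (G : SimpleGraph V) (I : Finset V) : Prop := ∀ u ∈ I, ∀ v ∈ I, ¬ G.Adj u v

lemma base {S : Finset V} (h : rk G S S ≤ 2) {m : ℕ} (hm : 4 * m ≤ S.card) :
    ∃ I ⊆ S, m ≤ I.card ∧ Ind G I := by
  obtain ⟨J, hJ, hJ'⟩ := exists_sig (G := G) S
  have h1 : J.powerset.card * m ≤ S.card := by
    rw [card_powerset]
    have : 2 ^ J.card ≤ 2 ^ 2 := Nat.pow_le_pow_right (by norm_num) (hJ.trans h)
    nlinarith
  obtain ⟨y, -, hy⟩ := exists_le_card_fiber_of_mul_le_card_of_maps_to
    (f := fun i => J.filter (G.Adj i)) (s := S) (t := J.powerset)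
    (fun i _ => mem_powerset.2 (filter_subset _ _)) ⟨∅, empty_mem_powerset _⟩ h1
  refine ⟨_, filter_subset _ _, hy, fun u hu v hv huv => ?_⟩
  rw [mem_filter] at hu hv
  exact G.irrefl ((hJ' u hu.1 v hv.1 (hu.2.trans hv.2.symm) v hv.1).1 huv)

lemma split {S A B : Finset V} (hA : A ⊆ S) (hB : B ⊆ S) {e : ℝ}
    (h : ∀ a ∈ A, ∀ b ∈ B, row G a b = e) : rk G A A + rk G B B ≤ rk G S S + 1 := by
  rcases A.eq_empty_or_nonempty with rfl | ⟨a0, ha0⟩
  · have h1 : rk G ∅ ∅ = 0 := by
      rw [rk, sp, coe_empty, Set.image_empty, span_empty, finrank_bot]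
    have := rk_mono (G := G) hB hB
    omega
  set W := sp G S S with hW
  have h1 := LinearMap.finrank_range_add_finrank_ker ((res B).domRestrict W)
  rw [LinearMap.range_domRestrict, LinearMap.ker_domRestrict, map_sp S hB,
    ← finrank_map_subtype_eq, map_comap_subtype] at h1
  have h2 : rk G B B ≤ finrank ℝ (sp G S B) := rk_mono hB subset_rfl
  have h3 : sp G A S ≤ (W ⊓ LinearMap.ker (res B)) ⊔ span ℝ {res S (row G a0)} := by
    rw [sp, span_le]
    rintro _ ⟨a, ha, rfl⟩
    have e1 : res S (row G a) = (res S (row G a) - res S (row G a0)) + res S (row G a0) := by abel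
    simp only
    rw [e1]
    refine add_mem_sup ⟨sub_mem (mem_sp (hA ha)) (mem_sp (hA ha0)), ?_⟩ (mem_span_singleton_self _)
    change res B _ = 0
    rw [map_sub, res_res hB, res_res hB]
    funext j
    by_cases hj : j ∈ B
    · simp [res_apply, hj, h a ha j hj, h a0 ha0 j hj]
    · simp [res_apply, hj]
  have h4 := finrank_mono h3
  have h5 := finrank_add_le_finrank_add_finrank (W ⊓ LinearMap.ker (res B))
    (span ℝ {res S (row G a0)})
  have h6 : finrank ℝ (span ℝ {res S (row G a0)}) ≤ 1 := by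
    simpa using finrank_span_le_card (R := ℝ) ({res S (row G a0)} : Set (V → ℝ))
  have h7 : rk G A A ≤ finrank ℝ (sp G A S) := rk_mono subset_rfl hA
  have h8 : rk G S S = finrank ℝ W := rfl
  omega

lemma rect {S A B : Finset V} (hA : A ⊆ S) (hB : B ⊆ S) {R : ℕ} (hR : rk G S S ≤ R) (c : Prop)
    [Decidable c] (hq : 4 * (R + 1) ≤ B.card)
    (h : ∀ a ∈ A, 4 * (R + 1) * (B.filter fun b => b ≠ a ∧ (G.Adj a b ↔ c)).card ≤ B.card) :
    ∃ B' ⊆ B, B.card ≤ 2 * B'.card ∧ ∃ e : ℝ, ∀ a ∈ A, ∀ b ∈ B', row G a b = e := by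
  classical
  set e : ℝ := if c then 0 else 1 with he
  let w : V → V → ℝ := fun a => res S (row G a) - e • (1 : V → ℝ)
  obtain ⟨t, hts, hc, hsp, -⟩ := exists_finset_span_eq_linearIndepOn ℝ (w '' A)
  have h1 : t.card ≤ R + 1 := by
    have h3 : span ℝ (w '' A) ≤ sp G S S ⊔ span ℝ {(1 : V → ℝ)} := by
      rw [span_le]
      rintro _ ⟨a, ha, rfl⟩
      exact sub_mem (mem_sup_left (mem_sp (hA ha)))
        (mem_sup_right (smul_mem _ _ (mem_span_singleton_self _)))
    have h4 := finrank_mono h3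
    have h5 := finrank_add_le_finrank_add_finrank (sp G S S) (span ℝ {(1 : V → ℝ)})
    have h6 : finrank ℝ (span ℝ {(1 : V → ℝ)}) ≤ 1 := by
      simpa using finrank_span_le_card (R := ℝ) ({(1 : V → ℝ)} : Set (V → ℝ))
    have h8 : rk G S S = finrank ℝ (sp G S S) := rfl
    omega
  refine ⟨B.filter fun b => ∀ x ∈ t, x b = 0, filter_subset _ _, ?_, e, fun a ha b hb => ?_⟩
  · have h2 : B.filter (fun b => ¬ ∀ x ∈ t, x b = 0) ⊆
        t.biUnion fun x => B.filter fun b => x b ≠ 0 := by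
      intro b hb
      rw [mem_filter] at hb
      obtain ⟨hb1, hb2⟩ := hb
      push Not at hb2
      obtain ⟨x, hx, hx'⟩ := hb2
      exact mem_biUnion.2 ⟨x, hx, mem_filter.2 ⟨hb1, hx'⟩⟩
    have h3 : ∀ x ∈ t, 4 * (R + 1) * (B.filter fun b => x b ≠ 0).card ≤ 2 * B.card := by
      intro x hx
      obtain ⟨a, ha, rfl⟩ := hts hx
      have h4 : (B.filter fun b => w a b ≠ 0) ⊆
          insert a (B.filter fun b => b ≠ a ∧ (G.Adj a b ↔ c)) := by
        intro b hb
        rw [mem_filter] at hb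
        by_cases hba : b = a
        · rw [hba]; exact mem_insert_self _ _
        · refine mem_insert_of_mem (mem_filter.2 ⟨hb.1, hba, ?_⟩)
          have h5 := hb.2
          simp only [w, Pi.sub_apply, res_apply, hB hb.1, if_true, row, he, Pi.smul_apply,
            Pi.one_apply, smul_eq_mul, mul_one] at h5
          by_cases h6 : G.Adj a b <;> by_cases h7 : c <;> simp_all
      have h5 := (card_le_card h4).trans (card_insert_le _ _)
      have h6 := h a ha
      nlinarith
    have h4 := (card_le_card h2).trans card_biUnion_le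
    have h5 : 4 * (R + 1) * ∑ x ∈ t, (B.filter fun b => x b ≠ 0).card ≤ t.card * (2 * B.card) := by
      rw [mul_sum]
      simpa using sum_le_card_nsmul t _ _ h3
    have h6 := card_filter_add_card_filter_not (s := B) (fun b => ∀ x ∈ t, x b = 0)
    have h7 : (R + 1) * (4 * (B.filter (fun b => ¬ ∀ x ∈ t, x b = 0)).card) ≤
        (R + 1) * (2 * B.card) := by
      have := Nat.mul_le_mul_right (2 * B.card) h1
      nlinarith
    have h8 := Nat.le_of_mul_le_mul_left h7 (Nat.succ_pos R)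
    omega
  · rw [mem_filter] at hb
    have h2 : w a ∈ span ℝ (t : Set (V → ℝ)) := by
      rw [hsp]; exact subset_span ⟨a, ha, rfl⟩
    have h3 : span ℝ (t : Set (V → ℝ)) ≤ LinearMap.ker (LinearMap.proj b : (V → ℝ) →ₗ[ℝ] ℝ) := by
      rw [span_le]
      exact fun x hx => hb.2 x hx
    have h4 : w a b = 0 := h3 h2
    simp only [w, Pi.sub_apply, res_apply, hB hb.1, if_true, Pi.smul_apply,
      Pi.one_apply, smul_eq_mul, mul_one] at h4
    linarith

omit [Fintype V] in
lemma ehp {ι : Type*} [DecidableEq ι] (H : SimpleGraph ι) [DecidableRel H.Adj] [Nonempty V]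
    (S : Finset V) {q m : ℕ} (hm : 0 < m) (I : Finset ι) : I.card ≤ q →
    ∀ W : ι → Finset V, (∀ i ∈ I, W i ⊆ S ∧ q ^ I.card * m ≤ (W i).card) →
    (∃ f : ι → V, (∀ i ∈ I, f i ∈ W i) ∧
      ∀ i ∈ I, ∀ j ∈ I, i ≠ j → f i ≠ f j ∧ (G.Adj (f i) (f j) ↔ H.Adj i j)) ∨
    ∃ (A B : Finset V) (i j : ι), A ⊆ S ∧ B ⊆ S ∧ m ≤ A.card ∧ q * m ≤ B.card ∧
      ∀ a ∈ A, q * (B.filter fun b => b ≠ a ∧ (G.Adj a b ↔ H.Adj i j)).card ≤ B.card := by
  induction I using Finset.induction_on with
  | empty => exact fun _ _ _ => Or.inl ⟨fun _ => Classical.arbitrary V, by simp, by simp⟩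
  | insert i0 I hi0 ih =>
    intro hq W hW
    rw [card_insert_of_notMem hi0] at hq hW
    have hq0 : 0 < q := by omega
    have hqm : ∀ i ∈ insert i0 I, q * m ≤ (W i).card := by
      intro i hi
      refine le_trans ?_ (hW i hi).2
      have : q ≤ q ^ (I.card + 1) := Nat.le_self_pow (by omega) q
      exact Nat.mul_le_mul_right m this
    by_cases hc : ∃ v ∈ W i0, ∀ j ∈ I, (W j).card ≤
        q * ((W j).filter fun b => b ≠ v ∧ (G.Adj v b ↔ H.Adj i0 j)).card
    · obtain ⟨v, hv, hv'⟩ := hc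
      rcases ih (by omega) (fun j => (W j).filter fun b => b ≠ v ∧ (G.Adj v b ↔ H.Adj i0 j))
        (fun j hj => ⟨(filter_subset _ _).trans (hW j (mem_insert_of_mem hj)).1, by
          have h1 := (hW j (mem_insert_of_mem hj)).2.trans (hv' j hj)
          rw [pow_succ', mul_assoc] at h1
          exact Nat.le_of_mul_le_mul_left h1 hq0⟩) with ⟨f, hf, hf'⟩ | h
      · left
        have hne : ∀ j ∈ I, j ≠ i0 := fun j hj h => hi0 (h ▸ hj)
        refine ⟨Function.update f i0 v, fun i hi => ?_, fun i hi j hj hij => ?_⟩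
        · rcases mem_insert.1 hi with rfl | hi
          · simpa using hv
          · rw [Function.update_of_ne (hne i hi)]
            exact (mem_filter.1 (hf i hi)).1
        · rcases mem_insert.1 hi with hi' | hi'
          · rcases mem_insert.1 hj with hj' | hj'
            · exact absurd (hi'.trans hj'.symm) hij
            · rw [Function.update_of_ne (hne j hj'), hi', Function.update_self]
              have := (mem_filter.1 (hf j hj')).2
              exact ⟨this.1.symm, this.2⟩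
          · rcases mem_insert.1 hj with hj' | hj'
            · rw [Function.update_of_ne (hne i hi'), hj', Function.update_self]
              have := (mem_filter.1 (hf i hi')).2
              exact ⟨this.1, by rw [G.adj_comm, H.adj_comm]; exact this.2⟩
            · rw [Function.update_of_ne (hne i hi'), Function.update_of_ne (hne j hj')]
              exact hf' i hi' j hj' hij
      · exact Or.inr h
    · right
      push Not at hc
      have : Nonempty ι := ⟨i0⟩
      choose! g hg hg' using hc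
      have h0 := hqm i0 (mem_insert_self _ _)
      have hpos : 0 < (W i0).card := lt_of_lt_of_le (Nat.mul_pos hq0 hm) h0
      obtain ⟨v0, hv0⟩ := card_pos.1 hpos
      obtain ⟨j, hj, hj'⟩ := exists_le_card_fiber_of_mul_le_card_of_maps_to
        (f := g) (s := W i0) (t := I) (n := m) hg ⟨_, hg v0 hv0⟩
        (le_trans (Nat.mul_le_mul_right m (by omega)) h0)
      refine ⟨_, W j, i0, j, (filter_subset _ _).trans (hW i0 (mem_insert_self _ _)).1,
        (hW j (mem_insert_of_mem hj)).1, hj', hqm j (mem_insert_of_mem hj), fun a ha => ?_⟩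
      rw [mem_filter] at ha
      have := hg' a ha.1
      rw [ha.2] at this
      exact this.le

lemma step {k : ℕ} {H : SimpleGraph (Fin k)} (hH : IsEmpty (H ↪g G)) {R : ℕ}
    (hk : k ≤ 4 * (R + 1)) {S : Finset V} (hR : rk G S S ≤ R) {m : ℕ} (hm : 0 < m)
    (hS : (4 * (R + 1)) ^ k * m ≤ S.card) :
    ∃ A ⊆ S, m ≤ A.card ∧ 2 * rk G A A ≤ rk G S S + 1 := by
  classical
  have hpos : 0 < S.card := lt_of_lt_of_le (by positivity) hS
  obtain ⟨v0, -⟩ := card_pos.1 hpos
  have : Nonempty V := ⟨v0⟩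
  rcases ehp (G := G) H S (q := 4 * (R + 1)) hm Finset.univ (by simpa using hk) (fun _ => S)
    (fun _ _ => ⟨subset_rfl, by simpa using hS⟩) with ⟨f, -, hf⟩ | ⟨A, B, i, j, hA, hB, h1, h2, h3⟩
  · exfalso
    refine hH.false ⟨⟨f, fun i j hij => ?_⟩, fun {i j} => ?_⟩
    · by_contra h
      exact (hf i (mem_univ _) j (mem_univ _) h).1 hij
    · by_cases h : i = j
      · subst h; simp
      · exact (hf i (mem_univ _) j (mem_univ _) h).2
  · obtain ⟨B', hB', h4, e, h5⟩ := rect hA hB hR (H.Adj i j) (by nlinarith) h3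
    have h6 := split hA (hB'.trans hB) h5
    rcases le_total (rk G A A) (rk G B' B') with h7 | h7
    · exact ⟨A, hA, h1, by omega⟩
    · exact ⟨B', hB'.trans hB, by nlinarith, by omega⟩

lemma indep {k : ℕ} {H : SimpleGraph (Fin k)} (hH : IsEmpty (H ↪g G)) {R : ℕ}
    (hk : k ≤ 4 * (R + 1)) (t : ℕ) : ∀ S : Finset V, rk G S S ≤ R → rk G S S ≤ 2 ^ t + 1 →
    ∀ m, 0 < m → (4 * (R + 1)) ^ (k * t) * (4 * m) ≤ S.card → ∃ I ⊆ S, m ≤ I.card ∧ Ind G I := by
  induction t with
  | zero => exact fun S _ h m _ hm => base h (by simpa using hm)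
  | succ t ih =>
    intro S h1 h2 m hm hS
    rw [mul_add_one k t, pow_add, mul_comm (_ ^ (k * t)), mul_assoc] at hS
    obtain ⟨A, hA, h3, h4⟩ := step hH hk h1 (by positivity) hS
    obtain ⟨I, hI, h5⟩ := ih A ((rk_mono hA hA).trans h1) (by rw [pow_succ] at h2; omega) m hm h3
    exact ⟨I, hI.trans hA, h5⟩

omit [Fintype V] [DecidableRel G.Adj] in
lemma greedy {F : ℕ} (hF : 0 < F) (S0 : Finset V)
    (h : ∀ S ⊆ S0, S.Nonempty → ∃ I ⊆ S, S.card ≤ F * I.card ∧ Ind G I) (c : ℕ) :
    ∀ S ⊆ S0, (S.card : ℝ) * (1 - 1 / F) ^ c < 1 →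
      ∃ f : V → ℕ, (∀ v ∈ S, f v < c) ∧ ∀ u ∈ S, ∀ v ∈ S, G.Adj u v → f u ≠ f v := by
  have hF' : (1 : ℝ) ≤ F := by exact_mod_cast hF
  have h0 : (0 : ℝ) ≤ 1 - 1 / F := by
    rw [sub_nonneg, div_le_one (by linarith)]; exact hF'
  induction c with
  | zero =>
    intro S _ hS
    have : S.card = 0 := by
      rw [pow_zero, mul_one] at hS
      have : S.card < 1 := by exact_mod_cast hS
      omega
    rw [card_eq_zero.1 this]
    exact ⟨fun _ => 0, by simp, by simp⟩
  | succ c ih =>
    intro S hS0 hS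
    rcases S.eq_empty_or_nonempty with rfl | hne
    · exact ⟨fun _ => 0, by simp, by simp⟩
    obtain ⟨I, hI, h1, h2⟩ := h S hS0 hne
    have h3 : ((S \ I).card : ℝ) ≤ S.card * (1 - 1 / F) := by
      rw [card_sdiff_of_subset hI, Nat.cast_sub (card_le_card hI)]
      have h4 : (S.card : ℝ) ≤ F * I.card := by exact_mod_cast h1
      have h5 : (S.card : ℝ) * (1 / F) ≤ I.card := by
        rw [mul_one_div, div_le_iff₀ (by linarith)]; linarith
      linarith
    obtain ⟨f, hf, hf'⟩ := ih (S \ I) (sdiff_subset.trans hS0) (by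
      refine lt_of_le_of_lt ?_ hS
      rw [pow_succ', ← mul_assoc]
      exact mul_le_mul_of_nonneg_right h3 (pow_nonneg h0 _))
    refine ⟨fun v => if v ∈ I then c else f v, fun v hv => ?_, fun u hu v hv huv => ?_⟩
    · by_cases hvI : v ∈ I
      · simp [hvI]
      · simp only [hvI, if_false]
        exact (hf v (mem_sdiff.2 ⟨hv, hvI⟩)).trans (Nat.lt_succ_self c)
    · by_cases huI : u ∈ I <;> by_cases hvI : v ∈ I
      · exact absurd huv (h2 u huI v hvI)
      · simp only [huI, hvI, if_true, if_false]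
        exact (hf v (mem_sdiff.2 ⟨hv, hvI⟩)).ne'
      · simp only [huI, hvI, if_true, if_false]
        exact (hf u (mem_sdiff.2 ⟨hu, huI⟩)).ne
      · simp only [huI, hvI, if_false]
        exact hf' u (mem_sdiff.2 ⟨hu, huI⟩) v (mem_sdiff.2 ⟨hv, hvI⟩) huv

lemma colorable_of {F : ℕ} (hF : 0 < F)
    (h : ∀ S : Finset V, S.Nonempty → ∃ I ⊆ S, S.card ≤ F * I.card ∧ Ind G I) :
    G.Colorable (F * (rk G univ univ + 1)) := by
  classical
  rcases isEmpty_or_nonempty V with hV | hV
  · exact SimpleGraph.Colorable.of_isEmpty _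
  obtain ⟨J, hJ, hJ'⟩ := exists_sig (G := G) univ
  set r := rk G univ univ with hr
  let sig : V → Finset V := fun i => J.filter (G.Adj i)
  let S0 : Finset V := J.powerset.image (Function.invFun sig)
  have h1 : S0.card ≤ 2 ^ r :=
    card_image_le.trans (by rw [card_powerset]; exact Nat.pow_le_pow_right (by norm_num) hJ)
  have hF' : (1 : ℝ) ≤ F := by exact_mod_cast hF
  have h0 : (0 : ℝ) ≤ 1 - 1 / F := by
    rw [sub_nonneg, div_le_one (by linarith)]; exact hF'
  have h2 : (S0.card : ℝ) * (1 - 1 / F) ^ (F * (r + 1)) < 1 := by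
    have h3 : (1 - 1 / F : ℝ) ^ F ≤ 1 / 2 := by
      have h4 : (1 - 1 / F : ℝ) ≤ Real.exp (-(1 / F)) := by
        have := Real.add_one_le_exp (-(1 / F : ℝ)); linarith
      have h5 : (1 - 1 / F : ℝ) ^ F ≤ Real.exp (-(1 / F)) ^ F := pow_le_pow_left₀ h0 h4 F
      rw [← Real.exp_nat_mul] at h5
      have h6 : (F : ℝ) * -(1 / F) = -1 := by field_simp
      rw [h6] at h5
      have h7 := Real.exp_neg_one_lt_d9
      linarith
    have h4 : (S0.card : ℝ) ≤ 2 ^ r := by exact_mod_cast h1
    rw [pow_mul]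
    calc (S0.card : ℝ) * ((1 - 1 / F) ^ F) ^ (r + 1) ≤ 2 ^ r * (1 / 2) ^ (r + 1) := by
          gcongr
      _ = 1 / 2 := by rw [pow_succ, ← mul_assoc, ← mul_pow]; norm_num
      _ < 1 := by norm_num
  obtain ⟨f, hf, hf'⟩ := greedy hF S0 (fun S _ => h S) _ S0 subset_rfl h2
  have h3 : ∀ v, Function.invFun sig (sig v) ∈ S0 := fun v =>
    mem_image_of_mem _ (mem_powerset.2 (filter_subset _ _))
  have h4 : ∀ v w, G.Adj (Function.invFun sig (sig v)) w ↔ G.Adj v w := fun v w =>
    hJ' _ (mem_univ _) _ (mem_univ _) (Function.invFun_eq (f := sig) ⟨v, rfl⟩) w (mem_univ _)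
  refine ⟨SimpleGraph.Coloring.mk (fun v => ⟨f (Function.invFun sig (sig v)), hf _ (h3 v)⟩)
    fun {u v} huv => ?_⟩
  intro h5
  refine hf' _ (h3 u) _ (h3 v) ?_ (congrArg Fin.val h5)
  rw [h4, G.adj_comm, h4, G.adj_comm]
  exact huv

lemma rk_univ : rk G univ univ = (G.adjMatrix ℝ).rank := by
  have h : (fun i => res univ (row G i)) '' (univ : Finset V) = Set.range (G.adjMatrix ℝ).row := by
    rw [coe_univ, Set.image_univ]
    congr 1
    funext i j
    simp [res_apply, row, Matrix.row]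
  rw [Matrix.rank_eq_finrank_span_row, rk, sp, h]

theorem colorable {k : ℕ} {H : SimpleGraph (Fin k)} (hH : IsEmpty (H ↪g G))
    (hk : k ≤ 4 * (rk G univ univ + 1)) {t : ℕ} (ht : rk G univ univ ≤ 2 ^ t + 1) :
    G.Colorable (8 * (4 * (rk G univ univ + 1)) ^ (k * t) * (rk G univ univ + 1)) := by
  refine colorable_of (by positivity) fun S hS => ?_
  set Q := (4 * (rk G univ univ + 1)) ^ (k * t) with hQ
  have hQ0 : 0 < Q := by positivity
  have h1 : rk G S S ≤ rk G univ univ := rk_mono (subset_univ _) (subset_univ _)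
  have h2 := Nat.lt_mul_div_succ S.card (show 0 < 4 * Q by omega)
  rcases Nat.eq_zero_or_pos (S.card / (4 * Q)) with h | h
  · obtain ⟨v, hv⟩ := hS
    refine ⟨{v}, by simpa using hv, ?_, fun a ha b hb => ?_⟩
    · rw [h] at h2
      simp only [card_singleton]
      omega
    · rw [mem_singleton.1 ha, mem_singleton.1 hb]
      exact G.irrefl
  · obtain ⟨I, hI, h3, h4⟩ := indep hH hk t S h1 (h1.trans ht) _ h (by
      have := Nat.mul_div_le S.card (4 * Q)
      rw [← hQ]
      nlinarith)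
    exact ⟨I, hI, by nlinarith, h4⟩

lemma colorable_pow : G.Colorable (2 ^ rk G univ univ) := by
  obtain ⟨J, hJ, hJ'⟩ := exists_sig (G := G) univ
  have h := (SimpleGraph.Coloring.mk (G := G) (α := J.powerset)
    (fun v => ⟨J.filter (G.Adj v), mem_powerset.2 (filter_subset _ _)⟩) (fun {u v} huv h => by
      exact G.irrefl ((hJ' u (mem_univ _) v (mem_univ _) (congrArg Subtype.val h) v
        (mem_univ _)).1 huv))).colorable
  refine h.mono ?_
  rw [Fintype.card_coe, card_powerset]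
  exact Nat.pow_le_pow_right (by norm_num) hJ

omit [Fintype V] [DecidableEq V] [DecidableRel G.Adj] in
lemma logb_le_of_colorable {n : ℕ} (hn : 0 < n) (h : G.Colorable n) :
    Real.logb 2 (G.chromaticNumber.toNat : ℝ) ≤ Real.logb 2 n := by
  have h1 : G.chromaticNumber.toNat ≤ n := ENat.toNat_le_of_le_natCast h.chromaticNumber_le
  rcases Nat.eq_zero_or_pos G.chromaticNumber.toNat with h0 | h0
  · rw [h0, Nat.cast_zero, Real.logb_zero]
    exact Real.logb_nonneg (by norm_num) (by exact_mod_cast hn)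
  · exact Real.logb_le_logb_of_le (by norm_num) (by exact_mod_cast h0) (by exact_mod_cast h1)

theorem main {k : ℕ} {H : SimpleGraph (Fin k)} (hH : IsEmpty (H ↪g G))
    (hr : 1 < (G.adjMatrix ℝ).rank) :
    Real.logb 2 (G.chromaticNumber.toNat : ℝ) ≤
      13 * k * (Real.logb 2 ((G.adjMatrix ℝ).rank : ℝ)) ^ 2 := by
  rw [← rk_univ] at hr ⊢
  set r := rk G univ univ with hrr
  set L := Real.logb 2 (r : ℝ) with hL
  have hr2 : (2 : ℝ) ≤ r := by exact_mod_cast hr
  have hL1 : 1 ≤ L := by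
    rw [hL, Real.le_logb_iff_rpow_le (by norm_num) (by linarith)]
    simpa using hr2
  have hk1 : 1 ≤ k := by
    rcases Nat.eq_zero_or_pos k with rfl | h
    · exact (hH.false ⟨⟨Fin.elim0, fun a => a.elim0⟩, fun {a} => a.elim0⟩).elim
    · exact h
  have hk1' : (1 : ℝ) ≤ k := by exact_mod_cast hk1
  by_cases hk : k ≤ 4 * (r + 1)
  · have ht : r ≤ 2 ^ Nat.clog 2 r + 1 := (Nat.le_pow_clog (by norm_num) r).trans (Nat.le_succ _)
    have h1 := logb_le_of_colorable (by positivity) (colorable hH hk ht)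
    have h2 : 8 * (4 * (r + 1)) ^ (k * Nat.clog 2 r) * (r + 1) ≤
        r ^ (5 + 4 * (k * Nat.clog 2 r)) := by
      have a1 : 4 * (r + 1) ≤ r ^ 4 := by
        have : 2 ^ 3 ≤ r ^ 3 := Nat.pow_le_pow_left hr 3
        have e : r ^ 4 = r ^ 3 * r := by ring
        nlinarith
      have a2 : 8 * (r + 1) ≤ r ^ 5 := by
        have e : r ^ 5 = r ^ 4 * r := by ring
        nlinarith
      have a3 := Nat.pow_le_pow_left a1 (k * Nat.clog 2 r)
      rw [pow_add, pow_mul r 4]
      calc 8 * (4 * (r + 1)) ^ (k * Nat.clog 2 r) * (r + 1)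
          = 8 * (r + 1) * (4 * (r + 1)) ^ (k * Nat.clog 2 r) := by ring
        _ ≤ _ := Nat.mul_le_mul a2 a3
    have h3 : Real.logb 2 ((8 * (4 * (r + 1)) ^ (k * Nat.clog 2 r) * (r + 1) : ℕ) : ℝ) ≤
        Real.logb 2 ((r ^ (5 + 4 * (k * Nat.clog 2 r)) : ℕ) : ℝ) :=
      Real.logb_le_logb_of_le (by norm_num) (by positivity) (by exact_mod_cast h2)
    rw [Nat.cast_pow, Real.logb_pow, ← hL] at h3
    have h4 : (Nat.clog 2 r : ℝ) ≤ 2 * L := by
      have b1 : 2 ^ (Nat.clog 2 r).pred < r := Nat.pow_pred_clog_lt_self (by norm_num) hr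
      have b2 : (((Nat.clog 2 r).pred : ℕ) : ℝ) ≤ L := by
        rw [hL, Real.le_logb_iff_rpow_le (by norm_num) (by linarith), Real.rpow_natCast]
        exact_mod_cast b1.le
      have b3 : Nat.clog 2 r ≤ (Nat.clog 2 r).pred + 1 := Nat.le_succ_of_pred_le le_rfl
      have b4 : (Nat.clog 2 r : ℝ) ≤ (((Nat.clog 2 r).pred : ℕ) : ℝ) + 1 := by exact_mod_cast b3
      linarith
    push_cast at h3
    have h5 : (k : ℝ) * Nat.clog 2 r ≤ k * (2 * L) := by gcongr
    have h6 : 1 ≤ (k : ℝ) * L := by nlinarith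
    push_cast at h1
    nlinarith
  · have h1 := logb_le_of_colorable (by positivity) (colorable_pow (G := G))
    rw [Nat.cast_pow, Real.logb_pow, Nat.cast_ofNat, Real.logb_self_eq_one (by norm_num),
      mul_one, ← hrr] at h1
    have h2 : (r : ℝ) ≤ k := by exact_mod_cast (by omega : r ≤ k)
    have h3 : 1 ≤ L ^ 2 := by nlinarith
    have h4 : (k : ℝ) * 1 ≤ k * L ^ 2 := by gcongr
    nlinarith

end Pool.Agent.H138Z.RankChi
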